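import Pool.Agent.U873.HD.Basic

open MeasureTheory Filter Topology Complex
open scoped ENNReal NNReal Classical

namespace Pool.U873.HD

lemma pigeon (E : Finset Circle) {η : ℝ} (hη : 0 < η) :
    ∃ l : ℕ, ∀ n : ℤ, ∃ m : ℤ, |m| ≤ l ∧ ∀ w ∈ E, ‖(w:ℂ)^n - (w:ℂ)^m‖ ≤ η := by
  let Φ : ℤ → (E → Circle) := fun n w => (w : Circle)^n
  have htb : TotallyBounded (Set.range Φ) :=
    (isCompact_univ.totallyBounded).subset (Set.subset_univ _)
  obtain ⟨t, hts, htf, hcov⟩ := Metric.finite_approx_of_totallyBounded htb η hη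
  have hm : ∀ y : E → Circle, ∃ m : ℤ, y ∈ t → Φ m = y := by
    intro y
    by_cases hy : y ∈ t
    · obtain ⟨m, hm⟩ := hts hy
      exact ⟨m, fun _ => hm⟩
    · exact ⟨0, fun h => absurd h hy⟩
  choose m hm using hm
  refine ⟨∑ y ∈ htf.toFinset, (m y).natAbs, fun n => ?_⟩
  have hn : Φ n ∈ ⋃ y ∈ t, Metric.ball y η := hcov ⟨n, rfl⟩
  simp only [Set.mem_iUnion, Metric.mem_ball] at hn
  obtain ⟨y, hy, hd⟩ := hn
  refine ⟨m y, ?_, fun w hw => ?_⟩
  · have h1 : (m y).natAbs ≤ ∑ y ∈ htf.toFinset, (m y).natAbs :=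
      Finset.single_le_sum (f := fun y => (m y).natAbs) (fun _ _ => Nat.zero_le _)
        (htf.mem_toFinset.mpr hy)
    calc |m y| = ((m y).natAbs : ℤ) := Int.abs_eq_natAbs _
      _ ≤ _ := by exact_mod_cast h1
  · have h1 : dist (Φ n ⟨w, hw⟩) (y ⟨w, hw⟩) < η := (dist_le_pi_dist _ _ _).trans_lt hd
    rw [← hm y hy] at h1
    have h2 : dist ((w^n : Circle) : ℂ) ((w^(m y) : Circle):ℂ) < η := h1
    rw [dist_eq_norm] at h2
    simpa using h2.le

lemma null_fiber {X : Type} [MeasurableSpace X] (ν : Measure X) [IsFiniteMeasure ν] {ζ : X → Circle}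
    (mz : Measurable ζ) : ∃ f : ℕ → Circle, ∀ w, w ∉ Set.range f → ν {x | ζ x = w} = 0 := by
  have hc : Set.Countable {w : Circle | 0 < ν {x | ζ x = w}} :=
    Measure.countable_meas_level_set_pos mz
  obtain ⟨f, hf⟩ := Set.countable_iff_exists_subset_range.mp hc
  refine ⟨f, fun w hw => ?_⟩
  by_contra h
  exact hw (hf (pos_iff_ne_zero.mpr h))

/-- the continuous part has mean square zero along some windows -/
lemma window {F : ℤ → ℂ} {X : Type} [MeasurableSpace X] {ν : Measure X} {ζ : X → Circle}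
    {h : X → ℂ} (R : RepD F X ν ζ h) (hnull : ∀ w, ν {x | ζ x = w} = 0) (L : ℕ) {ε : ℝ}
    (hε : 0 < ε) : ∃ a : ℤ, ∀ i : ℕ, i < L → ‖F (a + i)‖ ≤ ε := by
  rcases Nat.eq_zero_or_pos L with rfl | hL
  · exact ⟨0, fun i hi => absurd hi (Nat.not_lt_zero _)⟩
  have hf := R.fin
  have RR := R.mul R.conj
  have hz : ∫ p : X × X, (if ζ p.1 * (ζ p.2)⁻¹ = 1 then (1:ℂ) else 0) *
      (h p.1 * (starRingEnd ℂ) (h p.2)) ∂(ν.prod ν) = 0 := by
    refine integral_eq_zero_of_ae ?_
    have hms : MeasurableSet {p : X × X | ζ p.1 * (ζ p.2)⁻¹ = 1} :=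
      RR.mz (measurableSet_singleton 1)
    have h0 : (ν.prod ν) {p : X × X | ζ p.1 * (ζ p.2)⁻¹ = 1} = 0 := by
      rw [Measure.measure_prod_null hms]
      filter_upwards with x
      have : (Prod.mk x ⁻¹' {p : X × X | ζ p.1 * (ζ p.2)⁻¹ = 1}) = {x' | ζ x' = ζ x} := by
        ext x'
        simp only [Set.mem_preimage, Set.mem_ofPred_eq]
        rw [mul_inv_eq_one]
        exact eq_comm
      rw [this]
      exact hnull _
    have h1 : ∀ᵐ p ∂(ν.prod ν), ¬ (ζ p.1 * (ζ p.2)⁻¹ = 1) := by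
      rw [ae_iff]
      simpa using h0
    filter_upwards [h1] with p hp
    rw [if_neg hp, zero_mul]; rfl
  have hL' : (0:ℝ) < L := by exact_mod_cast hL
  obtain ⟨N0, hN0, hmean⟩ := RR.mean (ε := ε^2 / (2 * L)) (by positivity)
  by_contra hcon
  push Not at hcon
  have hbl : ∀ M : ℕ, M * ε^2 ≤ ∑ j ∈ Finset.range (M * L), ‖F ((0:ℤ) + (j:ℤ))‖^2 := by
    intro M
    induction M with
    | zero => simp
    | succ M ih =>
      rw [Nat.succ_mul, Finset.sum_range_add]
      obtain ⟨i, hi, hi2⟩ := hcon (M * L : ℕ)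
      have h1 : ε^2 ≤ ∑ i ∈ Finset.range L, ‖F (0 + ((M * L + i : ℕ) : ℤ))‖^2 := by
        calc ε^2 ≤ ‖F (0 + ((M * L + i : ℕ) : ℤ))‖^2 := by
              have : (0 + ((M * L + i : ℕ) : ℤ)) = ((M*L : ℕ) : ℤ) + (i:ℤ) := by push_cast; ring
              rw [this]
              exact pow_le_pow_left₀ hε.le hi2.le 2
          _ ≤ _ := Finset.single_le_sum
              (f := fun i : ℕ => ‖F (0 + ((M * L + i : ℕ) : ℤ))‖^2)
              (fun _ _ => by positivity) (Finset.mem_range.mpr hi)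
      push_cast
      push_cast at h1 ih
      linarith
  have h2 := hmean (N0 * L) (Nat.le_mul_of_pos_right _ hL) 0
  rw [hz, sub_zero] at h2
  have h3 : av (fun n => F n * (starRingEnd ℂ) (F n)) (N0 * L) 0 =
      (((N0 * L : ℕ) : ℝ)⁻¹ * ∑ j ∈ Finset.range (N0 * L), ‖F ((0:ℤ) + (j:ℤ))‖^2 : ℝ) := by
    unfold av
    push_cast
    congr 1
    refine Finset.sum_congr rfl fun j _ => ?_
    rw [Complex.mul_conj, Complex.normSq_eq_norm_sq]
    push_cast
    rfl
  rw [h3, Complex.norm_real, Real.norm_eq_abs] at h2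
  have h4 := (le_abs_self _).trans h2
  have h5 := hbl N0
  have hN0' : (0:ℝ) < N0 := by exact_mod_cast hN0
  have hpos : (0:ℝ) < ((N0 * L : ℕ) : ℝ) := by push_cast; positivity
  rw [inv_mul_le_iff₀ hpos] at h4
  have h6 : (((N0 * L : ℕ) : ℝ)) * (ε^2 / (2*L)) = N0 * ε^2 / 2 := by
    push_cast; field_simp
  rw [h6] at h4
  have : 0 < (N0:ℝ) * ε^2 := by positivity
  linarith

lemma tail_small {X : Type} [MeasurableSpace X] {ν : Measure X} {ζ : X → Circle}
    {h : X → ℂ} (mz : Measurable ζ) (hi : Integrable h ν) (f : ℕ → Circle) {ε : ℝ} (hε : 0 < ε) :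
    ∃ K : ℕ, ∫ x, (if ζ x ∈ Set.range f ∧ ζ x ∉ f '' (Set.Iio K) then 1 else 0) * ‖h x‖ ∂ν ≤ ε := by
  have hms : ∀ K : ℕ, MeasurableSet {x | ζ x ∈ Set.range f ∧ ζ x ∉ f '' (Set.Iio K)} := by
    intro K
    have h1 : MeasurableSet (Set.range f) := (Set.countable_range f).measurableSet
    have h2 : MeasurableSet (f '' (Set.Iio K)) := ((Set.to_countable _).image f).measurableSet
    exact (mz h1).inter (mz h2).compl
  have hT : Tendsto (fun K : ℕ => ∫ x, (if ζ x ∈ Set.range f ∧ ζ x ∉ f '' (Set.Iio K) then 1 else 0)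
      * ‖h x‖ ∂ν) atTop (𝓝 (∫ x, 0 ∂ν)) := by
    refine tendsto_integral_of_dominated_convergence (fun x => ‖h x‖) ?_ hi.norm ?_ ?_
    · intro K
      exact ((Measurable.ite (hms K) measurable_const measurable_const).aestronglyMeasurable).mul
        hi.norm.aestronglyMeasurable
    · intro K
      filter_upwards with x
      split_ifs <;> simp
    · filter_upwards with x
      by_cases hx : ζ x ∈ Set.range f
      · obtain ⟨i, hi⟩ := hx
        refine tendsto_const_nhds.congr' ?_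
        filter_upwards [eventually_gt_atTop i] with K hK
        rw [if_neg, zero_mul]
        rintro ⟨-, h2⟩
        exact h2 ⟨i, hK, hi⟩
      · simp only [hx, false_and, if_false, zero_mul]
        exact tendsto_const_nhds
  rw [integral_zero] at hT
  obtain ⟨K, hK⟩ := eventually_atTop.mp (hT.eventually_le_const hε)
  exact ⟨K, hK K le_rfl⟩

/-- almost periodicity along long windows -/
theorem RepD.ap {F : ℤ → ℂ} {X : Type} [MeasurableSpace X] {ν : Measure X} {ζ : X → Circle}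
    {h : X → ℂ} (R : RepD F X ν ζ h) :
    ∃ l : ℕ, ∀ L : ℕ, ∃ a : ℤ, ∀ n : ℤ, ∃ m : ℤ, |m| ≤ l ∧ ∀ k : ℤ,
      a ≤ k + n → k + n < a + L → a ≤ k + m → k + m < a + L → ‖F (k+n) - F (k+m)‖ ≤ 3/4 := by
  have hf := R.fin
  obtain ⟨f, hnf⟩ := null_fiber ν R.mz
  set S : Set Circle := Set.range f with hS
  have hSm : MeasurableSet S := (Set.countable_range f).measurableSet
  have hSm' : MeasurableSet (ζ ⁻¹' S) := R.mz hSm
  -- continuous part
  let G : ℤ → ℂ := fun n => ∫ x in (ζ ⁻¹' S)ᶜ, (ζ x : ℂ)^n * h x ∂ν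
  have RG : RepD G X (ν.restrict (ζ ⁻¹' S)ᶜ) ζ h := ⟨inferInstance, R.mz, R.hi.restrict, fun n => rfl⟩
  have hGnull : ∀ w, (ν.restrict (ζ ⁻¹' S)ᶜ) {x | ζ x = w} = 0 := by
    intro w
    rw [Measure.restrict_apply (show MeasurableSet {x | ζ x = w} from
      R.mz (measurableSet_singleton w))]
    by_cases hw : w ∈ S
    · have : {x | ζ x = w} ∩ (ζ ⁻¹' S)ᶜ = ∅ := by
        ext x
        simp only [Set.mem_inter_iff, Set.mem_ofPred_eq, Set.mem_compl_iff, Set.mem_preimage,
          Set.mem_empty_iff_false, iff_false, not_and, not_not]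
        rintro rfl
        exact hw
      rw [this, measure_empty]
    · exact measure_mono_null Set.inter_subset_left (hnf w hw)
  -- atomic part
  let D : ℤ → ℂ := fun n => ∫ x in (ζ ⁻¹' S), (ζ x : ℂ)^n * h x ∂ν
  have hFDG : ∀ n, F n = D n + G n := by
    intro n
    rw [R.eq]
    exact (integral_add_compl hSm' (integrable_zpow R.mz R.hi n)).symm
  obtain ⟨K, hK⟩ := tail_small R.mz R.hi f (ε := 1/16) (by norm_num)
  set H : ℝ := ∫ x, ‖h x‖ ∂ν with hH
  have hH0 : 0 ≤ H := integral_nonneg fun _ => norm_nonneg _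
  obtain ⟨l, hl⟩ := pigeon (Finset.image f (Finset.range K)) (η := 1 / (8 * (H + 1)))
    (by positivity)
  refine ⟨l, fun L => ?_⟩
  obtain ⟨a, ha⟩ := window RG hGnull L (ε := 1/4) (by norm_num)
  refine ⟨a, fun n => ?_⟩
  obtain ⟨m, hm, hm2⟩ := hl n
  refine ⟨m, hm, fun k h1 h2 h3 h4 => ?_⟩
  have hG1 : ‖G (k+n)‖ ≤ 1/4 := by
    have := ha (k + n - a).toNat (by omega)
    rwa [Int.toNat_of_nonneg (by omega), add_sub_cancel] at this
  have hG2 : ‖G (k+m)‖ ≤ 1/4 := by
    have := ha (k + m - a).toNat (by omega)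
    rwa [Int.toNat_of_nonneg (by omega), add_sub_cancel] at this
  have hD : ‖D (k+n) - D (k+m)‖ ≤ 1/4 := by
    have e1 : D (k+n) - D (k+m) = ∫ x in (ζ ⁻¹' S),
        ((ζ x : ℂ)^(k+n) * h x - (ζ x : ℂ)^(k+m) * h x) ∂ν :=
      (integral_sub (integrable_zpow R.mz R.hi _).restrict
        (integrable_zpow R.mz R.hi _).restrict).symm
    rw [e1]
    refine (norm_integral_le_integral_norm _).trans ?_
    rw [← integral_indicator hSm']
    have hms : MeasurableSet {x | ζ x ∈ Set.range f ∧ ζ x ∉ f '' (Set.Iio K)} := by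
      have h2 : MeasurableSet (f '' (Set.Iio K)) := ((Set.to_countable _).image f).measurableSet
      exact hSm'.inter (R.mz h2).compl
    have it : Integrable (fun x => (if ζ x ∈ Set.range f ∧ ζ x ∉ f '' (Set.Iio K) then 1 else 0)
        * ‖h x‖) ν := by
      refine R.hi.norm.mono' (((Measurable.ite hms measurable_const
        measurable_const).aestronglyMeasurable).mul R.hi.norm.aestronglyMeasurable) ?_
      filter_upwards with x
      split_ifs <;> simp
    calc ∫ x, (ζ ⁻¹' S).indicator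
          (fun x => ‖(ζ x : ℂ)^(k+n) * h x - (ζ x : ℂ)^(k+m) * h x‖) x ∂ν
        ≤ ∫ x, (1 / (8 * (H + 1)) * ‖h x‖ + 2 *
            ((if ζ x ∈ Set.range f ∧ ζ x ∉ f '' (Set.Iio K) then 1 else 0) * ‖h x‖)) ∂ν := by
          refine integral_mono_of_nonneg ?_ ((R.hi.norm.const_mul _).add (it.const_mul 2)) ?_
          · filter_upwards with x
            exact Set.indicator_nonneg (fun _ _ => norm_nonneg _) _
          · filter_upwards with x
            have hnn : (0:ℝ) ≤ 1 / (8 * (H + 1)) * ‖h x‖ := by positivity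
            by_cases hx : ζ x ∈ S
            · rw [Set.indicator_of_mem (show x ∈ ζ ⁻¹' S from hx)]
              have e2 : (ζ x : ℂ)^(k+n) * h x - (ζ x : ℂ)^(k+m) * h x =
                  (ζ x:ℂ)^k * (((ζ x:ℂ)^n - (ζ x:ℂ)^m) * h x) := by
                rw [zpow_add₀ (Circle.coe_ne_zero _), zpow_add₀ (Circle.coe_ne_zero _)]
                ring
              rw [e2, norm_mul, norm_zpow, Circle.norm_coe, one_zpow, one_mul, norm_mul]
              by_cases hx2 : ζ x ∈ f '' (Set.Iio K)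
              · have hx3 : ζ x ∈ Finset.image f (Finset.range K) := by
                  obtain ⟨i, hi, hi2⟩ := hx2
                  exact Finset.mem_image.mpr ⟨i, Finset.mem_range.mpr hi, hi2⟩
                have := mul_le_mul_of_nonneg_right (hm2 _ hx3) (norm_nonneg (h x))
                simp only [hx2, not_true, and_false, if_false, zero_mul, mul_zero, add_zero]
                exact this
              · rw [if_pos ⟨hx, hx2⟩, one_mul]
                have : ‖(ζ x:ℂ)^n - (ζ x:ℂ)^m‖ ≤ 2 := by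
                  calc _ ≤ ‖(ζ x:ℂ)^n‖ + ‖(ζ x:ℂ)^m‖ := norm_sub_le _ _
                    _ = 2 := by simp [Circle.norm_coe]; norm_num
                have := mul_le_mul_of_nonneg_right this (norm_nonneg (h x))
                linarith
            · rw [Set.indicator_of_notMem (show x ∉ ζ ⁻¹' S from hx)]
              have : (0:ℝ) ≤ 2 * ((if ζ x ∈ Set.range f ∧ ζ x ∉ f '' (Set.Iio K) then 1 else 0)
                * ‖h x‖) := by split_ifs <;> positivity
              linarith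
      _ = 1 / (8 * (H + 1)) * H + 2 *
            ∫ x, (if ζ x ∈ Set.range f ∧ ζ x ∉ f '' (Set.Iio K) then 1 else 0) * ‖h x‖ ∂ν := by
          rw [integral_add (R.hi.norm.const_mul _) (it.const_mul 2), integral_const_mul,
            integral_const_mul]
      _ ≤ 1/8 + 2 * (1/16) := by
          have : 1 / (8 * (H + 1)) * H ≤ 1/8 := by
            rw [div_mul_eq_mul_div, one_mul, div_le_div_iff₀ (by positivity) (by norm_num)]
            linarith
          linarith
      _ = 1/4 := by norm_num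
  rw [hFDG, hFDG]
  calc ‖D (k+n) + G (k+n) - (D (k+m) + G (k+m))‖
      = ‖(D (k+n) - D (k+m)) + G (k+n) - G (k+m)‖ := by congr 1; ring
    _ ≤ ‖D (k+n) - D (k+m)‖ + ‖G (k+n)‖ + ‖G (k+m)‖ :=
        (norm_sub_le _ _).trans (add_le_add (norm_add_le _ _) le_rfl)
    _ ≤ 1/4 + 1/4 + 1/4 := by gcongr
    _ = 3/4 := by norm_num

end Pool.U873.HD
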