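import Mathlib

open MeasureTheory Filter Topology Complex
open scoped ENNReal NNReal Classical

namespace Pool.U873.HD

noncomputable instance instMeasCircle : MeasurableSpace Circle := borel Circle
instance instBorelCircle : BorelSpace Circle := ⟨rfl⟩

/-- average of `F` over `[a, a+N)`. -/
noncomputable def av (F : ℤ → ℂ) (N : ℕ) (a : ℤ) : ℂ :=
  (N:ℂ)⁻¹ * ∑ j ∈ Finset.range N, F (a + j)

/-- The Fejer type bound. -/
noncomputable def ker (N : ℕ) (z : Circle) : ℝ :=
  if z = 1 then 0 else min 1 (2 / (N * ‖(z:ℂ) - 1‖))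

lemma ker_nonneg (N : ℕ) (z : Circle) : 0 ≤ ker N z := by
  unfold ker; split_ifs
  · exact le_rfl
  · positivity

lemma ker_le_one (N : ℕ) (z : Circle) : ker N z ≤ 1 := by
  unfold ker; split_ifs
  · exact zero_le_one
  · exact min_le_left _ _

lemma norm_av_le (F : ℤ → ℂ) (N : ℕ) (a : ℤ) (B : ℝ) (hB : 0 ≤ B) (h : ∀ n, ‖F n‖ ≤ B) :
    ‖av F N a‖ ≤ B := by
  unfold av
  rcases Nat.eq_zero_or_pos N with rfl | hN
  · simpa using hB
  rw [norm_mul, norm_inv, Complex.norm_natCast]
  have h1 : ‖∑ j ∈ Finset.range N, F (a + j)‖ ≤ N * B := by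
    calc _ ≤ ∑ j ∈ Finset.range N, ‖F (a + j)‖ := norm_sum_le _ _
      _ ≤ ∑ j ∈ Finset.range N, B := Finset.sum_le_sum fun j _ => h _
      _ = N * B := by simp
  have hN' : (0:ℝ) < N := by exact_mod_cast hN
  rw [inv_mul_le_iff₀ hN']
  exact h1

lemma av_zpow_bound (N : ℕ) (hN : 0 < N) (a : ℤ) (z : Circle) :
    ‖av (fun n => (z:ℂ)^n) N a - (if z = 1 then 1 else 0)‖ ≤ ker N z := by
  have hN' : (0:ℝ) < N := by exact_mod_cast hN
  unfold ker
  split_ifs with h
  · subst h
    unfold av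
    have : (N:ℂ) ≠ 0 := by exact_mod_cast hN.ne'
    simp [this]
  · rw [sub_zero]
    refine le_min (norm_av_le _ _ _ _ zero_le_one fun n => by simp [Circle.norm_coe]) ?_
    have hz : (z:ℂ) ≠ 1 := fun h' => h (Circle.coe_eq_one.mp h')
    have hz' : (z:ℂ) - 1 ≠ 0 := sub_ne_zero.mpr hz
    have hpos : 0 < ‖(z:ℂ) - 1‖ := norm_pos_iff.mpr hz'
    unfold av
    have h1 : ∑ j ∈ Finset.range N, (z:ℂ)^(a + (j:ℤ)) = (z:ℂ)^a * (((z:ℂ)^N - 1) / ((z:ℂ) - 1)) := by
      rw [← geom_sum_eq hz, Finset.mul_sum]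
      refine Finset.sum_congr rfl fun j _ => ?_
      rw [zpow_add₀ z.coe_ne_zero, zpow_natCast]
    rw [h1, norm_mul, norm_mul, norm_div, norm_inv, Complex.norm_natCast, norm_zpow,
      Circle.norm_coe, one_zpow, one_mul]
    have h2 : ‖(z:ℂ)^N - 1‖ ≤ 2 := by
      calc _ ≤ ‖(z:ℂ)^N‖ + ‖(1:ℂ)‖ := norm_sub_le _ _
        _ = 2 := by simp [Circle.norm_coe]; norm_num
    rw [inv_mul_eq_div, div_div, mul_comm (‖(z:ℂ) - 1‖)]
    gcongr

lemma measurable_ker (N : ℕ) : Measurable (ker N) := by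
  unfold ker
  refine Measurable.ite (measurableSet_singleton 1) measurable_const ?_
  refine measurable_const.min ?_
  refine measurable_const.div (measurable_const.mul ?_)
  exact (Continuous.norm (by fun_prop : Continuous fun z : Circle => (z:ℂ) - 1)).measurable

lemma tendsto_ker (z : Circle) : Tendsto (fun N => ker N z) atTop (𝓝 0) := by
  by_cases h : z = 1
  · simp [ker, h]
  · have hz : (z:ℂ) ≠ 1 := fun h' => h (Circle.coe_eq_one.mp h')
    have hpos : 0 < ‖(z:ℂ) - 1‖ := norm_pos_iff.mpr (sub_ne_zero.mpr hz)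
    have h1 : Tendsto (fun N : ℕ => 2 / ((N:ℝ) * ‖(z:ℂ) - 1‖)) atTop (𝓝 0) := by
      refine Tendsto.div_atTop tendsto_const_nhds ?_
      exact Tendsto.atTop_mul_const hpos tendsto_natCast_atTop_atTop
    refine squeeze_zero (fun N => ker_nonneg N z) (fun N => ?_) h1
    simp only [ker, h, if_false]
    exact min_le_right _ _

/-- `F` is the Fourier transform of a complex measure (pushed forward to the circle). -/
structure RepD (F : ℤ → ℂ) (X : Type) [MeasurableSpace X] (ν : Measure X) (ζ : X → Circle)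
    (h : X → ℂ) : Prop where
  fin : IsFiniteMeasure ν
  mz : Measurable ζ
  hi : Integrable h ν
  eq : ∀ n, F n = ∫ x, (ζ x : ℂ)^n * h x ∂ν

lemma continuous_zpow_coe (n : ℤ) : Continuous fun z : Circle => (z:ℂ)^n := by
  have : Continuous fun z : Circle => ((z^n : Circle) : ℂ) :=
    (by fun_prop : Continuous fun z : Circle => (z:ℂ)).comp (continuous_zpow n)
  simpa using this

lemma integrable_zpow {X : Type} [MeasurableSpace X] {ν : Measure X} {ζ : X → Circle}
    {h : X → ℂ} (mz : Measurable ζ) (hi : Integrable h ν) (n : ℤ) :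
    Integrable (fun x => (ζ x : ℂ)^n * h x) ν := by
  refine hi.norm.mono' ?_ ?_
  · exact (((continuous_zpow_coe n).measurable.comp mz).aestronglyMeasurable).mul
      hi.aestronglyMeasurable
  · filter_upwards with x
    simp [Circle.norm_coe]

lemma RepD.norm_le {F : ℤ → ℂ} {X : Type} [MeasurableSpace X] {ν : Measure X} {ζ : X → Circle}
    {h : X → ℂ} (R : RepD F X ν ζ h) (n : ℤ) : ‖F n‖ ≤ ∫ x, ‖h x‖ ∂ν := by
  rw [R.eq]
  refine (norm_integral_le_integral_norm _).trans (le_of_eq ?_)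
  refine integral_congr_ae ?_
  filter_upwards with x
  simp [Circle.norm_coe]

/-- uniform mean value -/
lemma RepD.mean {F : ℤ → ℂ} {X : Type} [MeasurableSpace X] {ν : Measure X} {ζ : X → Circle}
    {h : X → ℂ} (R : RepD F X ν ζ h) {ε : ℝ} (hε : 0 < ε) :
    ∃ N0 : ℕ, 0 < N0 ∧ ∀ N, N0 ≤ N → ∀ a : ℤ,
      ‖av F N a - ∫ x, (if ζ x = 1 then 1 else 0) * h x ∂ν‖ ≤ ε := by
  have hT : Tendsto (fun N => ∫ x, ker N (ζ x) * ‖h x‖ ∂ν) atTop (𝓝 (∫ x, 0 ∂ν)) := by
    refine tendsto_integral_of_dominated_convergence (fun x => ‖h x‖) ?_ R.hi.norm ?_ ?_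
    · intro N
      exact (((measurable_ker N).comp R.mz).aestronglyMeasurable).mul
        R.hi.norm.aestronglyMeasurable
    · intro N
      filter_upwards with x
      rw [norm_mul, Real.norm_of_nonneg (ker_nonneg _ _), norm_norm]
      exact mul_le_of_le_one_left (norm_nonneg _) (ker_le_one _ _)
    · filter_upwards with x
      simpa using (tendsto_ker (ζ x)).mul_const ‖h x‖
  rw [integral_zero] at hT
  obtain ⟨N1, hN1⟩ := eventually_atTop.mp (hT.eventually_le_const hε)
  refine ⟨max N1 1, by positivity, fun N hN a => ?_⟩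
  have hN0 : 0 < N := lt_of_lt_of_le (by positivity) hN
  have e1 : av F N a = ∫ x, (av (fun n => (ζ x:ℂ)^n) N a) * h x ∂ν := by
    unfold av
    simp_rw [R.eq]
    rw [← integral_finsetSum _ fun j _ => integrable_zpow R.mz R.hi _, ← integral_const_mul]
    refine integral_congr_ae ?_
    filter_upwards with x
    rw [mul_assoc, Finset.sum_mul]
  have i1 : Integrable (fun x => (av (fun n => (ζ x:ℂ)^n) N a) * h x) ν := by
    have : (fun x => (av (fun n => (ζ x:ℂ)^n) N a) * h x) =
        fun x => (N:ℂ)⁻¹ * ∑ j ∈ Finset.range N, (ζ x:ℂ)^(a + (j:ℤ)) * h x := by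
      funext x
      unfold av
      rw [mul_assoc, Finset.sum_mul]
    rw [this]
    exact (integrable_finsetSum _ fun j _ => integrable_zpow R.mz R.hi _).const_mul _
  have m1 : Measurable fun x => (if ζ x = 1 then (1:ℂ) else 0) :=
    Measurable.ite (R.mz (measurableSet_singleton 1)) measurable_const measurable_const
  have i2 : Integrable (fun x => (if ζ x = 1 then (1:ℂ) else 0) * h x) ν := by
    refine R.hi.norm.mono' (m1.aestronglyMeasurable.mul R.hi.aestronglyMeasurable) ?_
    filter_upwards with x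
    split_ifs <;> simp
  rw [e1, ← integral_sub i1 i2]
  refine (norm_integral_le_integral_norm _).trans ?_
  refine le_trans ?_ (hN1 N ((le_max_left _ _).trans hN))
  refine integral_mono_ae (i1.sub i2).norm ?_ ?_
  · refine R.hi.norm.mono' ((((measurable_ker N).comp R.mz).aestronglyMeasurable).mul
        R.hi.norm.aestronglyMeasurable) ?_
    filter_upwards with x
    rw [norm_mul, Real.norm_of_nonneg (ker_nonneg _ _), norm_norm]
    exact mul_le_of_le_one_left (norm_nonneg _) (ker_le_one _ _)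
  · filter_upwards with x
    rw [← sub_mul, norm_mul]
    exact mul_le_mul_of_nonneg_right (av_zpow_bound N hN0 a (ζ x)) (norm_nonneg _)

/-- product of two represented sequences, one shifted, the other possibly conjugated by the choice
of `ζ'`. -/
lemma RepD.mul {F G : ℤ → ℂ} {X Y : Type} [MeasurableSpace X] [MeasurableSpace Y]
    {ν : Measure X} {μ : Measure Y} {ζ : X → Circle} {ξ : Y → Circle}
    {h : X → ℂ} {k : Y → ℂ} (R : RepD F X ν ζ h) (S : RepD G Y μ ξ k) :
    RepD (fun n => F n * G n) (X × Y) (ν.prod μ) (fun p => ζ p.1 * ξ p.2)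
      (fun p => h p.1 * k p.2) := by
  have := R.fin
  have := S.fin
  refine ⟨inferInstance, ?_, R.hi.mul_prod S.hi, fun n => ?_⟩
  · exact (R.mz.comp measurable_fst).mul (S.mz.comp measurable_snd)
  · rw [R.eq, S.eq, ← integral_prod_mul]
    refine integral_congr_ae ?_
    filter_upwards with p
    simp only [Circle.coe_mul, mul_zpow]
    ring

lemma RepD.shift {F : ℤ → ℂ} {X : Type} [MeasurableSpace X] {ν : Measure X} {ζ : X → Circle}
    {h : X → ℂ} (R : RepD F X ν ζ h) :
    RepD (fun n => F (n+1)) X ν ζ (fun x => (ζ x : ℂ) * h x) := by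
  refine ⟨R.fin, R.mz, ?_, fun n => ?_⟩
  · simpa using integrable_zpow R.mz R.hi 1
  · rw [R.eq]
    refine integral_congr_ae ?_
    filter_upwards with x
    rw [zpow_add₀ (Circle.coe_ne_zero _), zpow_one, mul_assoc]

lemma RepD.conj {F : ℤ → ℂ} {X : Type} [MeasurableSpace X] {ν : Measure X} {ζ : X → Circle}
    {h : X → ℂ} (R : RepD F X ν ζ h) :
    RepD (fun n => (starRingEnd ℂ) (F n)) X ν (fun x => (ζ x)⁻¹) (fun x => (starRingEnd ℂ) (h x)) := by
  refine ⟨R.fin, R.mz.inv, ?_, fun n => ?_⟩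
  · have := (LinearIsometryEquiv.integrable_comp_iff (φ := h) (μ := ν) Complex.conjLIE).mpr R.hi
    simpa using this
  · rw [R.eq, ← integral_conj]
    refine integral_congr_ae ?_
    filter_upwards with x
    rw [map_mul, map_zpow₀, Circle.coe_inv_eq_conj]

end Pool.U873.HD
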