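import Pool.Agent.U873.HD.PartC

open MeasureTheory Filter Topology Complex
open scoped ENNReal NNReal Classical

namespace Pool.U873.HD

lemma norm_exp_sub_one_sq (x : ℝ) : ‖Complex.exp ((x:ℝ) * I) - 1‖^2 = 2 - 2 * Real.cos x := by
  rw [Complex.exp_mul_I, ← Complex.ofReal_cos, ← Complex.ofReal_sin, ← Complex.normSq_eq_norm_sq,
    Complex.normSq_apply]
  simp only [Complex.sub_re, Complex.add_re, Complex.ofReal_re, Complex.mul_re, Complex.I_re,
    Complex.ofReal_im, Complex.I_im, Complex.one_re, Complex.sub_im, Complex.add_im, Complex.mul_im,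
    Complex.one_im]
  have := Real.sin_sq_add_cos_sq x
  nlinarith

lemma gap {x : ℝ} (h1 : 1 ≤ x) (h2 : x ≤ 2) : 3/4 < ‖Complex.exp ((x:ℝ) * I) - 1‖ := by
  have hc : Real.cos x ≤ Real.cos 1 :=
    Real.cos_le_cos_of_nonneg_of_le_pi (by norm_num) (by linarith [Real.pi_gt_three]) h1
  have hc1 := Real.cos_one_le
  have h := norm_exp_sub_one_sq x
  by_contra hcon
  push Not at hcon
  have h3 : ‖Complex.exp ((x:ℝ) * I) - 1‖^2 ≤ (3/4)^2 := pow_le_pow_left₀ (norm_nonneg _) hcon 2
  rw [h] at h3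
  linarith

lemma cross (θ : ℕ → ℝ) (M : ℕ) (hstep : ∀ k, k < M → |θ (k+1) - θ k| ≤ 1)
    (hnear : ∀ k, k ≤ M → ‖Complex.exp ((θ k:ℝ) * I) - 1‖ ≤ 3/4) (h0 : 1 ≤ θ 0) :
    ∀ k, k ≤ M → 1 ≤ θ k := by
  intro k
  induction k with
  | zero => exact fun _ => h0
  | succ k ih =>
    intro hk
    have h1 := ih (by omega)
    have h2 : 2 < θ k := by
      by_contra hcon
      push Not at hcon
      exact absurd (hnear k (by omega)) (not_le.mpr (gap h1 hcon))
    have h3 := abs_le.mp (hstep k (by omega))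
    linarith

/-- one-sided version -/
lemma near_aux (φ : ℤ → ℝ) (hstep : ∀ n, |φ (n+1) - φ n| ≤ 1/2) (k0 p : ℤ) (τ M : ℕ)
    (hnear : ∀ k : ℕ, k ≤ M * τ →
      ‖Complex.exp ((φ (k0 + k + p + τ) - φ (k0 + k + p) : ℝ) * I) - 1‖ ≤ 3/4)
    (hslope : φ (k0 + p + (M * τ : ℕ)) - φ (k0 + p) < M) :
    φ (k0 + p + τ) - φ (k0 + p) < 1 := by
  by_contra hcon
  push Not at hcon
  have h1 := cross (fun k => φ (k0 + k + p + τ) - φ (k0 + k + p)) (M * τ) (by
    intro k _
    have h1 := abs_le.mp (hstep (k0 + k + p + τ))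
    have h2 := abs_le.mp (hstep (k0 + k + p))
    have e1 : k0 + ((k+1 : ℕ):ℤ) + p + τ = k0 + k + p + τ + 1 := by push_cast; ring
    have e2 : k0 + ((k+1 : ℕ):ℤ) + p = k0 + k + p + 1 := by push_cast; ring
    rw [e1, e2, abs_le]
    constructor <;> linarith) (by
    intro k hk
    exact_mod_cast hnear k hk) (by simpa using hcon)
  have h2 : ∀ m : ℕ, m ≤ M → (m:ℝ) ≤ φ (k0 + p + (m * τ : ℕ)) - φ (k0 + p) := by
    intro m
    induction m with
    | zero => intro _; simp
    | succ m ih =>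
      intro hm
      have h3 := ih (by omega)
      have h4 := h1 (m * τ) (Nat.mul_le_mul_right _ (by omega))
      beta_reduce at h4
      have e1 : k0 + p + ((m + 1) * τ : ℕ) = k0 + ((m * τ : ℕ):ℤ) + p + τ := by push_cast; ring
      have e2 : k0 + p + ((m * τ : ℕ):ℤ) = k0 + ((m * τ : ℕ):ℤ) + p := by ring
      rw [e1]
      rw [e2] at h3
      push_cast
      push_cast at h3 h4
      linarith
  have := h2 M le_rfl
  linarith

lemma near (φ : ℤ → ℝ) (hstep : ∀ n, |φ (n+1) - φ n| ≤ 1/2) (k0 p : ℤ) (τ M : ℕ)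
    (hnear : ∀ k : ℕ, k ≤ M * τ →
      ‖Complex.exp ((φ (k0 + k + p + τ) - φ (k0 + k + p) : ℝ) * I) - 1‖ ≤ 3/4)
    (hslope : |φ (k0 + p + (M * τ : ℕ)) - φ (k0 + p)| < M) :
    |φ (k0 + p + τ) - φ (k0 + p)| ≤ 1 := by
  have h := abs_lt.mp hslope
  rw [abs_le]
  constructor
  · have h1 := near_aux (fun n => - φ n) (by
      intro n
      have := hstep n
      rw [← abs_neg]
      convert! this using 2
      ring) k0 p τ M (by
      intro k hk
      have h2 := hnear k hk
      rw [← RCLike.norm_conj] at h2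
      convert! h2 using 2
      rw [map_sub, map_one, ← Complex.exp_conj, map_mul, Complex.conj_I, Complex.conj_ofReal]
      congr 2
      push_cast
      ring) (by linarith)
    beta_reduce at h1
    linarith
  · exact (near_aux φ hstep k0 p τ M hnear h.2).le

theorem partC (ψ : ℤ → ℝ) (hstep : ∀ n, |ψ (n+1) - ψ n| ≤ 1/2) (htop : Tendsto ψ atTop atTop)
    (hbot : Tendsto ψ atBot atTop) (hrep : ∀ y : ℝ, |y| < 1 → Rep (E ψ y)) : False := by
  -- choose y
  have hall : ∀ᵐ y ∂(volume.restrict (Set.Ioc (0:ℝ) (1/2))), ∀ j : ℕ, UMZ (E ψ (y / 2^j)) := by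
    rw [ae_all_iff]
    intro j
    have h2 : (0:ℝ) < 1 / 2^j := by positivity
    have hψ : Tendsto (fun n => (1 / 2^j : ℝ) * ψ n) atTop atTop := htop.const_mul_atTop h2
    have he : ∀ y : ℝ, E (fun n => (1 / 2^j : ℝ) * ψ n) y = E ψ (y / 2^j) := by
      intro y
      funext n
      unfold E
      congr 3
      ring
    have h3 := mean_zero (fun n => (1 / 2^j : ℝ) * ψ n) hψ (by
      intro y hy
      rw [he]
      refine hrep _ ?_
      rw [abs_div, abs_of_pos (by positivity : (0:ℝ) < 2^j), div_lt_one (by positivity)]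
      exact lt_of_lt_of_le hy (one_le_pow₀ (by norm_num)))
    simp_rw [he] at h3
    exact h3
  have hex : ∃ y ∈ Set.Ioc (0:ℝ) (1/2), ∀ j : ℕ, UMZ (E ψ (y / 2^j)) := by
    have hmem : ∀ᵐ y ∂(volume.restrict (Set.Ioc (0:ℝ) (1/2))), y ∈ Set.Ioc (0:ℝ) (1/2) :=
      ae_restrict_mem measurableSet_Ioc
    have hne : (volume.restrict (Set.Ioc (0:ℝ) (1/2))) ≠ 0 := by
      intro h
      have : (volume.restrict (Set.Ioc (0:ℝ) (1/2))) Set.univ = 0 := by rw [h]; rfl
      rw [Measure.restrict_apply_univ, Real.volume_Ioc] at this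
      norm_num at this
    have : (ae (volume.restrict (Set.Ioc (0:ℝ) (1/2)))).NeBot := ae_neBot.mpr hne
    obtain ⟨y, hy⟩ := (hmem.and hall).exists
    exact ⟨y, hy.1, hy.2⟩
  obtain ⟨y, hy, hU⟩ := hex
  have hy0 : 0 < y := hy.1
  have hy1 : y ≤ 1/2 := hy.2
  obtain ⟨X, _, ν, ζ, h, R⟩ := hrep y (by rw [abs_of_pos hy0]; linarith)
  obtain ⟨l, hl⟩ := R.ap
  -- choose j
  obtain ⟨j, hj⟩ := pow_unbounded_of_one_lt (2 * (1 + (l:ℝ))) (by norm_num : (1:ℝ) < 2)
  obtain ⟨N1, hN1⟩ := hU j (1/4) (by norm_num)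
  set L1 : ℕ := max N1 1 with hL1
  have hL1pos : 0 < L1 := by rw [hL1]; positivity
  set T : ℕ := L1 + l with hT
  obtain ⟨N0, hN0⟩ := slope ψ hstep htop hbot hrep (ε := 1 / (T + 1)) (by positivity)
  set M : ℕ := N0 + 1 with hM
  obtain ⟨a, ha⟩ := hl (l + M * T + L1 + l + 10)
  set k0 : ℤ := a + l with hk0
  -- scaled function
  set φ : ℤ → ℝ := fun n => y * ψ n with hφ
  have hφstep : ∀ n, |φ (n+1) - φ n| ≤ 1/2 := by
    intro n
    simp only [hφ]
    rw [← mul_sub, abs_mul, abs_of_pos hy0]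
    have := hstep n
    nlinarith [abs_nonneg (ψ (n+1) - ψ n)]
  have hpair : ∀ p : ℤ, ∀ τ : ℕ, τ ≤ T → -(l:ℤ) ≤ p → p + τ ≤ L1 + l →
      (∀ k : ℕ, k ≤ M * T → ‖E ψ y (k0 + k + p + τ) - E ψ y (k0 + k + p)‖ ≤ 3/4) →
      |φ (k0 + p + τ) - φ (k0 + p)| ≤ 1 := by
    intro p τ hτ hp hpτ hk
    rcases Nat.eq_zero_or_pos τ with rfl | hτ0
    · simp
    refine near φ hφstep k0 p τ M ?_ ?_
    · intro k hkM
      have h1 := hk k (hkM.trans (Nat.mul_le_mul_left _ hτ))
      have e1 : E ψ y (k0 + k + p + τ) - E ψ y (k0 + k + p) = E ψ y (k0 + k + p + τ) *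
          (1 - Complex.exp ((φ (k0 + k + p + τ) - φ (k0 + k + p) : ℝ) * I)) := by
        rw [mul_sub, mul_one]
        congr 1
        unfold E
        rw [← Complex.exp_add]
        congr 1
        simp only [hφ]
        push_cast
        ring
      rw [e1, norm_mul, norm_E, one_mul, norm_sub_rev] at h1
      exact h1
    · have h1 : N0 ≤ M * τ := by
        calc N0 ≤ M := by omega
          _ = M * 1 := (mul_one _).symm
          _ ≤ M * τ := Nat.mul_le_mul_left _ hτ0
      have h2 := hN0 (M * τ) h1 (k0 + p)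
      simp only [hφ]
      rw [← mul_sub, abs_mul, abs_of_pos hy0]
      have hMpos : (0:ℝ) < M := by rw [hM]; positivity
      have hτr : (τ:ℝ) ≤ T := by exact_mod_cast hτ
      have h3 : 1 / ((T:ℝ) + 1) * ((M * τ : ℕ):ℝ) ≤ M := by
        rw [div_mul_eq_mul_div, one_mul, div_le_iff₀ (by positivity)]
        push_cast
        nlinarith
      have h4 := h2.trans h3
      nlinarith [abs_nonneg (ψ (k0 + p + ((M * τ : ℕ):ℤ)) - ψ (k0 + p))]
  -- steps
  have hsteps : ∀ n : ℕ, ∀ b : ℤ, |φ (b + n) - φ b| ≤ n := by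
    intro n b
    induction n with
    | zero => simp
    | succ n ih =>
      have h1 := hφstep (b + n)
      have e1 : b + ((n+1 : ℕ) : ℤ) = b + n + 1 := by push_cast; ring
      rw [e1]
      have h2 := abs_le.mp h1
      have h3 := abs_le.mp ih
      rw [abs_le]
      push_cast
      constructor <;> linarith
  have hbound : ∀ n : ℕ, n < L1 → |φ (k0 + n) - φ k0| ≤ 1 + l := by
    intro n hn
    obtain ⟨m, hm, hm2⟩ := ha n
    have hm' := abs_le.mp hm
    have hpm : |φ (k0 + n) - φ (k0 + m)| ≤ 1 := by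
      rcases le_total m (n:ℤ) with hmn | hmn
      · have h1 := hpair m (n - m).toNat (by omega) (by omega) (by omega) (by
          intro k hk
          have hkZ : (k:ℤ) ≤ M * T := by exact_mod_cast hk
          have e1 : k0 + (k:ℤ) + m + ((n - m).toNat : ℤ) = (k0 + k) + n := by
            rw [Int.toNat_of_nonneg (by omega)]; ring
          have e2 : k0 + (k:ℤ) + m = (k0 + k) + m := by ring
          rw [e1, e2]
          refine hm2 (k0 + k) ?_ ?_ ?_ ?_ <;> push_cast <;> omega)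
        rw [Int.toNat_of_nonneg (by omega)] at h1
        convert! h1 using 3
        · congr 1; ring
      · have h1 := hpair n (m - n).toNat (by omega) (by omega) (by omega) (by
          intro k hk
          have hkZ : (k:ℤ) ≤ M * T := by exact_mod_cast hk
          have e1 : k0 + (k:ℤ) + n + ((m - n).toNat : ℤ) = (k0 + k) + m := by
            rw [Int.toNat_of_nonneg (by omega)]; ring
          have e2 : k0 + (k:ℤ) + n = (k0 + k) + n := by ring
          rw [e1, e2, norm_sub_rev]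
          refine hm2 (k0 + k) ?_ ?_ ?_ ?_ <;> push_cast <;> omega)
        rw [Int.toNat_of_nonneg (by omega), abs_sub_comm] at h1
        convert! h1 using 3
        · congr 1; ring
    have hm0 : |φ (k0 + m) - φ k0| ≤ l := by
      rcases le_total 0 m with h0 | h0
      · have h1 := hsteps m.toNat k0
        rw [Int.toNat_of_nonneg h0] at h1
        refine h1.trans ?_
        have : m.toNat ≤ l := by omega
        exact_mod_cast this
      · have h1 := hsteps (-m).toNat (k0 + m)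
        rw [Int.toNat_of_nonneg (by omega), abs_sub_comm] at h1
        have e1 : k0 + m + -m = k0 := by ring
        rw [e1] at h1
        refine h1.trans ?_
        have : (-m).toNat ≤ l := by omega
        exact_mod_cast this
    calc |φ (k0 + n) - φ k0| = |(φ (k0 + n) - φ (k0 + m)) + (φ (k0 + m) - φ k0)| := by
          congr 1; ring
      _ ≤ _ := abs_add_le _ _
      _ ≤ 1 + l := add_le_add hpm hm0
  -- the contradiction
  have hfin := hN1 L1 (le_max_left _ _) k0
  have hclose : ‖av (E ψ (y / 2^j)) L1 k0 - E ψ (y / 2^j) k0‖ ≤ 1/2 := by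
    unfold av
    have hLc : (L1:ℂ) ≠ 0 := by exact_mod_cast hL1pos.ne'
    have e1 : (L1:ℂ)⁻¹ * ∑ i ∈ Finset.range L1, E ψ (y / 2^j) (k0 + i) - E ψ (y / 2^j) k0 =
        (L1:ℂ)⁻¹ * ∑ i ∈ Finset.range L1, (E ψ (y / 2^j) (k0 + i) - E ψ (y / 2^j) k0) := by
      rw [Finset.sum_sub_distrib, mul_sub]
      simp only [Finset.sum_const, Finset.card_range, nsmul_eq_mul]
      rw [← mul_assoc, inv_mul_cancel₀ hLc, one_mul]
    rw [e1, norm_mul, norm_inv, Complex.norm_natCast]
    have hLr : (0:ℝ) < L1 := by exact_mod_cast hL1pos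
    rw [inv_mul_le_iff₀ hLr]
    calc _ ≤ ∑ i ∈ Finset.range L1, ‖E ψ (y / 2^j) (k0 + i) - E ψ (y / 2^j) k0‖ := norm_sum_le _ _
      _ ≤ ∑ i ∈ Finset.range L1, (1/2 : ℝ) := by
          refine Finset.sum_le_sum fun i hi => ?_
          unfold E
          refine (norm_exp_sub_exp _ _).trans ?_
          have h1 := hbound i (Finset.mem_range.mp hi)
          have e2 : -(y / 2^j * ψ (k0 + i)) - -(y / 2^j * ψ k0) =
              -((φ (k0 + i) - φ k0) / 2^j) := by simp only [hφ]; ring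
          rw [e2, abs_neg, abs_div, abs_of_pos (by positivity : (0:ℝ) < 2^j),
            div_le_iff₀ (by positivity)]
          linarith
      _ = L1 * (1/2) := by simp
  have h1 : ‖E ψ (y / 2^j) k0‖ ≤ ‖av (E ψ (y / 2^j)) L1 k0‖ +
      ‖av (E ψ (y / 2^j)) L1 k0 - E ψ (y / 2^j) k0‖ := by
    have := norm_sub_le (av (E ψ (y / 2^j)) L1 k0)
      (av (E ψ (y / 2^j)) L1 k0 - E ψ (y / 2^j) k0)
    simpa using this
  rw [norm_E] at h1
  linarith

end Pool.U873.HD
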