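import Pool.Agent.U873.HD.Final

open MeasureTheory Filter Topology Complex
open scoped ENNReal NNReal Classical

namespace Pool.U873.HD

/-- the Fourier transform -/
noncomputable def ft (g : ℝ → ℂ) (ξ : ℝ) : ℂ := ∫ x, (Circle.exp (-(ξ * x)) : ℂ) * g x

lemma circle_pow (η x : ℝ) (n : ℤ) :
    (Circle.exp (-(η * n * x)) : ℂ) = (Circle.exp (-(η * x)) : ℂ)^n := by
  rw [← Circle.coe_zpow, ← Circle.exp_intCast_mul]
  congr 2
  ring

lemma base (p : ℕ → ℝ → ℝ) (hp : ∀ k x, 0 ≤ p k x) (hi : ∀ k, Integrable (p k)) (B : ℝ)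
    (hB : ∀ k, ∫ x, p k x ≤ B) (η : ℝ) :
    ∃ ν : Measure Circle, IsFiniteMeasure ν ∧ ∀ n : ℤ,
      Tendsto (fun k => ∫ x, (Circle.exp (-(η * x)) : ℂ)^n * (p k x : ℂ)) (hyperfilter ℕ : Filter ℕ)
        (𝓝 (∫ z, (z:ℂ)^n ∂ν)) := by
  have hζ : Measurable fun x : ℝ => Circle.exp (-(η * x)) :=
    (Circle.exp.continuous.comp (by fun_prop : Continuous fun x : ℝ => -(η * x))).measurable
  have hfin : ∀ k, ∫⁻ x, ENNReal.ofReal (p k x) < ⊤ := by
    intro k
    rw [← ofReal_integral_eq_lintegral_ofReal (hi k) (ae_of_all _ (hp k))]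
    exact ENNReal.ofReal_lt_top
  let m0 : ℕ → Measure Circle := fun k =>
    (volume.withDensity (fun x => ENNReal.ofReal (p k x))).map (fun x : ℝ => Circle.exp (-(η * x)))
  have hmass : ∀ k, m0 k Set.univ = ENNReal.ofReal (∫ x, p k x) := by
    intro k
    rw [Measure.map_apply hζ MeasurableSet.univ, Set.preimage_univ,
      withDensity_apply _ MeasurableSet.univ, Measure.restrict_univ,
      ofReal_integral_eq_lintegral_ofReal (hi k) (ae_of_all _ (hp k))]
  have hf : ∀ k, IsFiniteMeasure (m0 k) := fun k => ⟨by rw [hmass]; exact ENNReal.ofReal_lt_top⟩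
  let m : ℕ → FiniteMeasure Circle := fun k => ⟨m0 k, hf k⟩
  have hB0 : 0 ≤ B := (integral_nonneg (hp 0)).trans (hB 0)
  have hm : ∀ k, (m k).mass ≤ B.toNNReal := by
    intro k
    have h1 : ((m k).mass : ℝ≥0∞) = ENNReal.ofReal (∫ x, p k x) := by
      rw [FiniteMeasure.ennreal_mass]; exact hmass k
    have h2 : ((m k).mass : ℝ≥0∞) ≤ (B.toNNReal : ℝ≥0∞) := by
      rw [h1]; exact ENNReal.ofReal_le_ofReal (hB k)
    exact_mod_cast h2
  have hcpt := isCompact_setOfPred_finiteMeasure_le_of_compactSpace Circle B.toNNReal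
  obtain ⟨ν, -, hν⟩ := hcpt.ultrafilter_le_nhds (Ultrafilter.map m (hyperfilter ℕ)) (by
    rw [le_principal_iff]
    exact Filter.mem_map.mpr (Filter.univ_mem' hm))
  refine ⟨ν, inferInstance, fun n => ?_⟩
  have hν' : Tendsto m (hyperfilter ℕ : Filter ℕ) (𝓝 ν) := hν
  rw [FiniteMeasure.tendsto_iff_forall_integral_rclike_tendsto ℂ] at hν'
  let fn : BoundedContinuousFunction Circle ℂ :=
    BoundedContinuousFunction.ofNormedAddCommGroup (fun z : Circle => (z:ℂ)^n)
      (continuous_zpow_coe n) 1 (fun z => by simp [Circle.norm_coe])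
  have h1 := hν' fn
  have e1 : ∀ k, ∫ z, fn z ∂(m k : Measure Circle) =
      ∫ x, (Circle.exp (-(η * x)) : ℂ)^n * (p k x : ℂ) := by
    intro k
    change ∫ z, (z:ℂ)^n ∂(m0 k) = _
    rw [integral_map hζ.aemeasurable (continuous_zpow_coe n).measurable.aestronglyMeasurable]
    rw [integral_withDensity_eq_integral_toReal_smul₀
      (hi k).aestronglyMeasurable.aemeasurable.ennreal_ofReal
      (ae_of_all _ fun _ => ENNReal.ofReal_lt_top)]
    refine integral_congr_ae (ae_of_all _ fun x => ?_)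
    simp only
    rw [ENNReal.toReal_ofReal (hp k x), Complex.real_smul, mul_comm]
  simp_rw [e1] at h1
  exact h1

lemma rep_of_limit (g : ℕ → ℝ → ℂ) (hi : ∀ k, Integrable (g k)) (B : ℝ)
    (hB : ∀ k, ∫ x, ‖g k x‖ ≤ B) (F : ℤ → ℂ) (η : ℝ)
    (hF : ∀ n : ℤ, Tendsto (fun k => ft (g k) (η * n)) atTop (𝓝 (F n))) : Rep F := by
  have hre : ∀ k, Integrable (fun x => (g k x).re) := fun k => (hi k).re
  have him : ∀ k, Integrable (fun x => (g k x).im) := fun k => (hi k).im
  have hle : ∀ (k : ℕ) (p : ℝ → ℝ), Integrable p → (∀ x, p x ≤ ‖g k x‖) → ∫ x, p x ≤ B := by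
    intro k p hp h
    exact (integral_mono hp (hi k).norm h).trans (hB k)
  obtain ⟨ν1, f1, h1⟩ := base (fun k x => max (g k x).re 0) (fun k x => le_max_right _ _)
    (fun k => (hre k).pos_part) B (fun k => hle k _ (hre k).pos_part fun x =>
      max_le (Complex.re_le_norm _) (norm_nonneg _)) η
  obtain ⟨ν2, f2, h2⟩ := base (fun k x => max (-(g k x).re) 0) (fun k x => le_max_right _ _)
    (fun k => (hre k).neg_part) B (fun k => hle k _ (hre k).neg_part fun x =>
      max_le ((neg_le_abs _).trans (Complex.abs_re_le_norm _)) (norm_nonneg _)) η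
  obtain ⟨ν3, f3, h3⟩ := base (fun k x => max (g k x).im 0) (fun k x => le_max_right _ _)
    (fun k => (him k).pos_part) B (fun k => hle k _ (him k).pos_part fun x =>
      max_le (Complex.im_le_norm _) (norm_nonneg _)) η
  obtain ⟨ν4, f4, h4⟩ := base (fun k x => max (-(g k x).im) 0) (fun k x => le_max_right _ _)
    (fun k => (him k).neg_part) B (fun k => hle k _ (him k).neg_part fun x =>
      max_le ((neg_le_abs _).trans (Complex.abs_im_le_norm _)) (norm_nonneg _)) η
  set ν : Measure Circle := ν1 + ν2 + ν3 + ν4 with hν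
  have hf : IsFiniteMeasure ν := inferInstance
  have ac1 : ν1 ≪ ν := Measure.absolutelyContinuous_of_le (by
    rw [hν, add_assoc, add_assoc]; exact Measure.le_add_right le_rfl)
  have ac2 : ν2 ≪ ν := Measure.absolutelyContinuous_of_le (by
    rw [hν, add_assoc]; exact Measure.le_add_right (Measure.le_add_left le_rfl))
  have ac3 : ν3 ≪ ν := Measure.absolutelyContinuous_of_le (by
    rw [hν]; exact Measure.le_add_right (Measure.le_add_left le_rfl))
  have ac4 : ν4 ≪ ν := Measure.absolutelyContinuous_of_le (by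
    rw [hν]; exact Measure.le_add_left le_rfl)
  have hint : ∀ μ : Measure Circle, IsFiniteMeasure μ →
      Integrable (fun z => ((μ.rnDeriv ν z).toReal : ℂ)) ν := fun μ _ =>
    (Measure.integrable_toReal_rnDeriv).ofReal
  have hform : ∀ μ : Measure Circle, IsFiniteMeasure μ → μ ≪ ν → ∀ n : ℤ,
      ∫ z : Circle, (z:ℂ)^n * ((μ.rnDeriv ν z).toReal : ℂ) ∂ν = ∫ z : Circle, (z:ℂ)^n ∂μ := by
    intro μ hμf hac n
    have : μ.HaveLebesgueDecomposition ν := Measure.haveLebesgueDecomposition_of_sigmaFinite μ ν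
    rw [← integral_rnDeriv_smul hac]
    refine integral_congr_ae (ae_of_all _ fun z => ?_)
    simp only
    rw [Complex.real_smul, mul_comm]
  refine ⟨Circle, inferInstance, ν, id, fun z => ((ν1.rnDeriv ν z).toReal : ℂ) -
    ((ν2.rnDeriv ν z).toReal : ℂ) + I * (((ν3.rnDeriv ν z).toReal : ℂ) -
    ((ν4.rnDeriv ν z).toReal : ℂ)), hf, measurable_id, ?_, fun n => ?_⟩
  · exact ((hint ν1 f1).sub (hint ν2 f2)).add (((hint ν3 f3).sub (hint ν4 f4)).const_mul I)
  · have hz : ∀ μ : Measure Circle, IsFiniteMeasure μ →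
        Integrable (fun z : Circle => (z:ℂ)^n * ((μ.rnDeriv ν z).toReal : ℂ)) ν := fun μ hμ =>
      integrable_zpow measurable_id (hint μ hμ) n
    have e1 : ∫ z : Circle, (z : ℂ)^n * (((ν1.rnDeriv ν z).toReal : ℂ) -
        ((ν2.rnDeriv ν z).toReal : ℂ) + I * (((ν3.rnDeriv ν z).toReal : ℂ) -
        ((ν4.rnDeriv ν z).toReal : ℂ))) ∂ν =
        (∫ z : Circle, (z:ℂ)^n ∂ν1) - (∫ z : Circle, (z:ℂ)^n ∂ν2) +
          I * ((∫ z : Circle, (z:ℂ)^n ∂ν3) - ∫ z : Circle, (z:ℂ)^n ∂ν4) := by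
      have j12 : Integrable (fun z : Circle => (z:ℂ)^n * ((ν1.rnDeriv ν z).toReal : ℂ) -
          (z:ℂ)^n * ((ν2.rnDeriv ν z).toReal : ℂ)) ν := (hz ν1 f1).sub (hz ν2 f2)
      have j34 : Integrable (fun z : Circle => I * ((z:ℂ)^n * ((ν3.rnDeriv ν z).toReal : ℂ) -
          (z:ℂ)^n * ((ν4.rnDeriv ν z).toReal : ℂ))) ν := ((hz ν3 f3).sub (hz ν4 f4)).const_mul I
      rw [← hform ν1 f1 ac1, ← hform ν2 f2 ac2, ← hform ν3 f3 ac3, ← hform ν4 f4 ac4,
        ← integral_sub (hz ν1 f1) (hz ν2 f2), ← integral_sub (hz ν3 f3) (hz ν4 f4),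
        ← integral_const_mul, ← integral_add j12 j34]
      refine integral_congr_ae (ae_of_all _ fun z => ?_)
      simp only
      ring
    simp only [id]
    rw [e1]
    have hu : Tendsto (fun k => ft (g k) (η * n)) (hyperfilter ℕ : Filter ℕ) (𝓝 (F n)) :=
      (hF n).mono_left Nat.hyperfilter_le_atTop
    refine tendsto_nhds_unique hu ?_
    have hlim := ((h1 n).sub (h2 n)).add (((h3 n).sub (h4 n)).const_mul I)
    refine hlim.congr fun k => ?_
    have mζ : Measurable fun x : ℝ => Circle.exp (-(η * x)) :=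
      (Circle.exp.continuous.comp (by fun_prop : Continuous fun x : ℝ => -(η * x))).measurable
    have ii : ∀ p : ℝ → ℝ, Integrable p →
        Integrable (fun x => (Circle.exp (-(η * x)) : ℂ)^n * (p x : ℂ)) := fun p hp =>
      integrable_zpow mζ hp.ofReal n
    have i1 := ii _ (hre k).pos_part
    have i2 := ii _ (hre k).neg_part
    have i3 := ii _ (him k).pos_part
    have i4 := ii _ (him k).neg_part
    have j12 : Integrable (fun x => (Circle.exp (-(η * x)) : ℂ)^n * ((max (g k x).re 0 : ℝ) : ℂ) -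
        (Circle.exp (-(η * x)) : ℂ)^n * ((max (-(g k x).re) 0 : ℝ) : ℂ)) := i1.sub i2
    have j34 : Integrable (fun x => I * ((Circle.exp (-(η * x)) : ℂ)^n *
        ((max (g k x).im 0 : ℝ) : ℂ) -
        (Circle.exp (-(η * x)) : ℂ)^n * ((max (-(g k x).im) 0 : ℝ) : ℂ))) :=
      (i3.sub i4).const_mul I
    rw [← integral_sub i1 i2, ← integral_sub i3 i4, ← integral_const_mul, ← integral_add j12 j34]
    unfold ft
    refine integral_congr_ae (ae_of_all _ fun x => ?_)
    simp only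
    rw [circle_pow]
    have hpm : ∀ r : ℝ, ((max r 0 : ℝ) : ℂ) - ((max (-r) 0 : ℝ) : ℂ) = (r : ℂ) := by
      intro r
      rw [← Complex.ofReal_sub]
      congr 1
      rcases le_total r 0 with h | h
      · rw [max_eq_right h, max_eq_left (by linarith)]; ring
      · rw [max_eq_left h, max_eq_right (by linarith)]; ring
    have e3 : (Circle.exp (-(η * x)) : ℂ)^n * ((max (g k x).re 0 : ℝ) : ℂ) -
        (Circle.exp (-(η * x)) : ℂ)^n * ((max (-(g k x).re) 0 : ℝ) : ℂ) +
        I * ((Circle.exp (-(η * x)) : ℂ)^n * ((max (g k x).im 0 : ℝ) : ℂ) -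
        (Circle.exp (-(η * x)) : ℂ)^n * ((max (-(g k x).im) 0 : ℝ) : ℂ)) =
        (Circle.exp (-(η * x)) : ℂ)^n * ((((max (g k x).re 0 : ℝ) : ℂ) -
          ((max (-(g k x).re) 0 : ℝ) : ℂ)) + (((max (g k x).im 0 : ℝ) : ℂ) -
          ((max (-(g k x).im) 0 : ℝ) : ℂ)) * I) := by ring
    rw [e3, hpm, hpm, Complex.re_add_im]

end Pool.U873.HD
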