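import Pool.Agent.U873.HD.PartBFinal

open MeasureTheory Filter Topology Complex
open scoped ENNReal NNReal Classical FourierTransform Convolution ContDiff

namespace Pool.U873.HD

lemma fourier_eq_ft (g : ℝ → ℂ) (w : ℝ) : 𝓕 g w = ft g (2 * Real.pi * w) := by
  rw [Real.fourier_real_eq]
  unfold ft
  refine integral_congr_ae (ae_of_all _ fun x => ?_)
  simp only
  rw [Circle.smul_def, Real.fourierChar_apply', smul_eq_mul]
  congr 3
  ring

lemma ft_eq_fourier (g : ℝ → ℂ) (ξ : ℝ) : ft g ξ = 𝓕 g (ξ / (2 * Real.pi)) := by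
  rw [fourier_eq_ft]
  congr 1
  field_simp

lemma ft_injective {g : ℝ → ℂ} (hg : Integrable g) (h : ∀ ξ, ft g ξ = 0) : g =ᵐ[volume] 0 := by
  have hF : ∀ w, 𝓕 g w = 0 := fun w => by rw [fourier_eq_ft, h]
  refine ae_eq_zero_of_integral_contDiff_smul_eq_zero (hg.locallyIntegrable) fun φ hφ hφs => ?_
  have hφ' : ContDiff ℝ ∞ (fun x => (φ x : ℂ)) := Complex.ofRealCLM.contDiff.comp hφ
  have hφs' : HasCompactSupport (fun x => (φ x : ℂ)) := hφs.comp_left Complex.ofReal_zero
  let Φ : SchwartzMap ℝ ℂ := hφs'.toSchwartzMap hφ'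
  have h0 : ∀ ξ, VectorFourier.fourierIntegral Real.fourierChar volume (innerₗ ℝ)
      ((𝓕⁻ Φ : SchwartzMap ℝ ℂ) : ℝ → ℂ) ξ = Φ ξ := by
    intro ξ
    have h2 : (𝓕 (𝓕⁻ Φ : SchwartzMap ℝ ℂ) : SchwartzMap ℝ ℂ) ξ = Φ ξ := by
      rw [FourierTransform.fourier_fourierInv_eq]
    rw [← h2, SchwartzMap.fourier_coe]
    rfl
  have h0' : ∀ x, VectorFourier.fourierIntegral Real.fourierChar volume (innerₗ ℝ) g x = 0 := by
    intro x
    rw [← hF x]
    rfl
  have h1 : ∫ ξ, Φ ξ • g ξ = 0 := by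
    have := VectorFourier.integral_fourierIntegral_smul_eq_flip (L := innerₗ ℝ) (μ := volume)
      (ν := volume) (f := ((𝓕⁻ Φ : SchwartzMap ℝ ℂ) : ℝ → ℂ)) (g := g)
      Real.continuous_fourierChar continuous_inner (𝓕⁻ Φ : SchwartzMap ℝ ℂ).integrable hg
    simp_rw [flip_innerₗ, h0, h0', smul_zero, integral_zero] at this
    exact this
  rw [← h1]
  refine integral_congr_ae (ae_of_all _ fun x => ?_)
  simp only
  change φ x • g x = (φ x : ℂ) • g x
  rw [Complex.real_smul, smul_eq_mul]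

lemma tendsto_ft_cocompact (g : ℝ → ℂ) : Tendsto (ft g) (cocompact ℝ) (𝓝 0) := by
  have h1 := Real.zero_at_infty_fourier g
  have h2 : Tendsto (fun ξ : ℝ => ξ / (2 * Real.pi)) (cocompact ℝ) (cocompact ℝ) := by
    have h3 : (0:ℝ) < 2 * Real.pi := by positivity
    exact (Homeomorph.mulRight₀ (2 * Real.pi)⁻¹ (by positivity)).isClosedEmbedding.tendsto_cocompact
  refine (h1.comp h2).congr fun ξ => ?_
  simp only [Function.comp]
  rw [ft_eq_fourier]

lemma conv_facts {f g : ℝ → ℂ} (hf : Integrable f) (hg : Integrable g) :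
    Integrable (fun x => ∫ y, f (x - y) * g y) ∧
    (∫ x, ‖∫ y, f (x - y) * g y‖ ≤ (∫ x, ‖f x‖) * ∫ x, ‖g x‖) ∧
    ∀ ξ, ft (fun x => ∫ y, f (x - y) * g y) ξ = ft f ξ * ft g ξ := by
  have e1 : (fun x => ∫ y, f (x - y) * g y) = (g ⋆[ContinuousLinearMap.mul ℂ ℂ] f) := by
    funext x
    simp only [convolution_def, ContinuousLinearMap.mul_apply']
    refine integral_congr_ae (ae_of_all _ fun y => ?_)
    simp only
    ring
  refine ⟨?_, ?_, fun ξ => ?_⟩
  · rw [e1]
    exact hg.integrable_convolution _ hf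
  · have h1 : Integrable ((fun x => ‖g x‖) ⋆[ContinuousLinearMap.mul ℝ ℝ] (fun x => ‖f x‖)) :=
      hg.norm.integrable_convolution _ hf.norm
    have h2 : ∫ x, ((fun x => ‖g x‖) ⋆[ContinuousLinearMap.mul ℝ ℝ] (fun x => ‖f x‖)) x =
        (∫ x, ‖g x‖) * ∫ x, ‖f x‖ := by
      rw [integral_convolution _ hg.norm hf.norm]
      simp
    rw [mul_comm, ← h2]
    refine integral_mono_of_nonneg (ae_of_all _ fun _ => norm_nonneg _) h1 (ae_of_all _ fun x => ?_)
    simp only [convolution_def, ContinuousLinearMap.mul_apply']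
    refine (norm_integral_le_integral_norm _).trans (le_of_eq ?_)
    refine integral_congr_ae (ae_of_all _ fun y => ?_)
    simp only [norm_mul]
    ring
  · rw [e1, ft_eq_fourier, ft_eq_fourier, ft_eq_fourier, Real.fourier_mul_convolution_eq hg hf,
      mul_comm]

/-- The involution. -/
lemma star_facts {f : ℝ → ℂ} (hf : Integrable f) :
    Integrable (fun x => (starRingEnd ℂ) (f (-x))) ∧
    (∫ x, ‖(starRingEnd ℂ) (f (-x))‖ = ∫ x, ‖f x‖) ∧
    ∀ ξ, ft (fun x => (starRingEnd ℂ) (f (-x))) ξ = (starRingEnd ℂ) (ft f ξ) := by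
  refine ⟨?_, ?_, fun ξ => ?_⟩
  · have h1 : Integrable (fun x => f (-x)) := hf.comp_neg
    have := (LinearIsometryEquiv.integrable_comp_iff (φ := fun x => f (-x)) (μ := volume)
      Complex.conjLIE).mpr h1
    simpa using this
  · simp only [RCLike.norm_conj]
    exact integral_neg_eq_self (fun x => ‖f x‖) volume
  · unfold ft
    rw [← integral_conj, ← integral_neg_eq_self]
    refine integral_congr_ae (ae_of_all _ fun x => ?_)
    simp only
    rw [map_mul, neg_neg]
    congr 1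
    rw [← Circle.coe_inv_eq_conj, ← Circle.exp_neg]
    congr 2
    ring

/-- The half plane. -/
def HP : Set ℂ := {t : ℂ | 0 < t.re}

lemma isOpen_HP : IsOpen HP := isOpen_lt continuous_const Complex.continuous_re

lemma exp_of_semigroup (f : ℂ → ℂ) (hf : DifferentiableOn ℂ f HP)
    (hmul : ∀ s ∈ HP, ∀ t ∈ HP, f (s + t) = f s * f t) (hne : ∃ t ∈ HP, f t ≠ 0) :
    ∃ γ : ℂ, ∀ t ∈ HP, f t = Complex.exp (t * γ) := by
  obtain ⟨t0, ht0, hft0⟩ := hne
  have hd : ∀ s ∈ HP, HasDerivAt f (deriv f s) s := fun s hs =>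
    (hf.differentiableAt (isOpen_HP.mem_nhds hs)).hasDerivAt
  have hadd : ∀ s ∈ HP, ∀ t ∈ HP, s + t ∈ HP := fun s hs t ht => by
    change 0 < (s + t).re
    rw [Complex.add_re]
    exact add_pos hs ht
  have hder : ∀ s ∈ HP, ∀ t ∈ HP, deriv f (s + t) = deriv f s * f t := by
    intro s hs t ht
    have h1 : HasDerivAt (fun z => f (z + t)) (deriv f (s + t)) s :=
      (hd (s + t) (hadd s hs t ht)).comp_add_const s t
    have h2 : HasDerivAt (fun z => f z * f t) (deriv f s * f t) s := (hd s hs).mul_const _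
    have h3 : (fun z => f (z + t)) =ᶠ[𝓝 s] fun z => f z * f t := by
      filter_upwards [isOpen_HP.mem_nhds hs] with z hz
      exact hmul z hz t ht
    exact h1.unique (h2.congr_of_eventuallyEq h3)
  set γ : ℂ := deriv f t0 / f t0 with hγ
  have hode : ∀ s ∈ HP, deriv f s = γ * f s := by
    intro s hs
    have h1 := hder s hs t0 ht0
    have h2 := hder t0 ht0 s hs
    rw [add_comm t0 s, h1] at h2
    rw [hγ, div_mul_eq_mul_div, eq_div_iff hft0]
    exact h2
  have hk : ∀ s ∈ HP, HasDerivAt (fun z => f z * Complex.exp (-(z * γ))) 0 s := by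
    intro s hs
    have h1 : HasDerivAt (fun z : ℂ => Complex.exp (-(z * γ))) (Complex.exp (-(s * γ)) * (-γ)) s := by
      have h2 : HasDerivAt (fun z : ℂ => -(z * γ)) (-γ) s := by
        exact (hasDerivAt_mul_const γ).fun_neg
      exact h2.cexp
    have h3 := (hd s hs).mul h1
    convert! h3 using 1
    rw [hode s hs]
    ring
  have hconst : ∀ s ∈ HP, f s * Complex.exp (-(s * γ)) = f t0 * Complex.exp (-(t0 * γ)) := by
    intro s hs
    have hpre : IsPreconnected HP := (convex_halfSpace_re_gt 0).isPreconnected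
    exact isOpen_HP.is_const_of_deriv_eq_zero hpre
      (fun z hz => (hk z hz).differentiableAt.differentiableWithinAt)
      (fun z hz => (hk z hz).deriv) hs ht0
  set c : ℂ := f t0 * Complex.exp (-(t0 * γ)) with hc
  have hc0 : c ≠ 0 := mul_ne_zero hft0 (Complex.exp_ne_zero _)
  have hfs : ∀ s ∈ HP, f s = c * Complex.exp (s * γ) := by
    intro s hs
    rw [← hconst s hs, mul_assoc, ← Complex.exp_add]
    simp
  have hc1 : c = 1 := by
    have h1 := hmul t0 ht0 t0 ht0
    rw [hfs _ (hadd t0 ht0 t0 ht0), hfs t0 ht0, add_mul, Complex.exp_add] at h1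
    have h2 : Complex.exp (t0 * γ) ≠ 0 := Complex.exp_ne_zero _
    have h3 : c * (Complex.exp (t0 * γ) * Complex.exp (t0 * γ)) =
        (c * c) * (Complex.exp (t0 * γ) * Complex.exp (t0 * γ)) := by
      rw [h1]; ring
    have h4 := mul_right_cancel₀ (mul_ne_zero h2 h2) h3
    have h5 : c * (c - 1) = 0 := by rw [mul_sub, ← h4]; ring
    rcases mul_eq_zero.mp h5 with h6 | h6
    · exact absurd h6 hc0
    · exact sub_eq_zero.mp h6
  exact ⟨γ, fun t ht => by rw [hfs t ht, hc1, one_mul]⟩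

/-- the Fourier transform at a point as a continuous linear functional on `L¹`. -/
noncomputable def ftL (ξ : ℝ) : Lp ℂ 1 (volume : Measure ℝ) →L[ℂ] ℂ :=
  LinearMap.mkContinuous
    { toFun := fun f => ft f ξ
      map_add' := by
        intro f g
        unfold ft
        rw [← integral_add (integrable_ft (L1.integrable_coeFn f) ξ)
          (integrable_ft (L1.integrable_coeFn g) ξ)]
        refine integral_congr_ae ?_
        filter_upwards [Lp.coeFn_add f g] with x hx
        rw [hx]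
        simp only [Pi.add_apply]
        ring
      map_smul' := by
        intro c f
        unfold ft
        simp only [RingHom.id_apply, smul_eq_mul]
        rw [← integral_const_mul]
        refine integral_congr_ae ?_
        filter_upwards [Lp.coeFn_smul c f] with x hx
        rw [hx]
        simp only [Pi.smul_apply, smul_eq_mul]
        ring } 1 (by
      intro f
      rw [one_mul, L1.norm_eq_integral_norm]
      change ‖ft f ξ‖ ≤ _
      unfold ft
      refine (norm_integral_le_integral_norm _).trans (le_of_eq ?_)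
      refine integral_congr_ae (ae_of_all _ fun x => ?_)
      simp only
      rw [norm_mul, norm_circle_exp, one_mul])

lemma ftL_apply (ξ : ℝ) (f : Lp ℂ 1 (volume : Measure ℝ)) : ftL ξ f = ft f ξ := rfl

theorem partA (a : ℂ → Lp ℂ 1 (volume : Measure ℝ)) (hhol : DifferentiableOn ℂ a {t : ℂ | 0 < t.re})
    (hmul : ∀ s t : ℂ, 0 < s.re → 0 < t.re →
      ∀ᵐ x : ℝ, (a (s + t) : ℝ → ℂ) x = ∫ y, (a s : ℝ → ℂ) (x - y) * (a t : ℝ → ℂ) y)
    (hne : ∃ t : ℂ, 0 < t.re ∧ a t ≠ 0)
    (C : ℝ) (hC : ∀ t : ℂ, 0 < t.re → ‖t‖ ≤ 1 → ‖a t‖ ≤ C) : False := by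
  have hint : ∀ t, Integrable (a t : ℝ → ℂ) := fun t => L1.integrable_coeFn (a t)
  have hnorm : ∀ t, ∫ x, ‖(a t : ℝ → ℂ) x‖ = ‖a t‖ := fun t => (L1.norm_eq_integral_norm (a t)).symm
  have hf : ∀ ξ, DifferentiableOn ℂ (fun t => ft (a t) ξ) HP := by
    intro ξ
    have := (ftL ξ).differentiable.comp_differentiableOn hhol
    exact this
  have hfmul : ∀ ξ, ∀ s ∈ HP, ∀ t ∈ HP, ft (a (s + t)) ξ = ft (a s) ξ * ft (a t) ξ := by
    intro ξ s hs t ht
    rw [← (conv_facts (hint s) (hint t)).2.2 ξ]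
    unfold ft
    refine integral_congr_ae ?_
    filter_upwards [hmul s t hs ht] with x hx
    rw [hx]
  have hexp : ∀ ξ, (∃ t ∈ HP, ft (a t) ξ ≠ 0) → ∃ γ : ℂ, ∀ t ∈ HP, ft (a t) ξ = Complex.exp (t * γ) :=
    fun ξ h => exp_of_semigroup _ (hf ξ) (hfmul ξ) h
  have h1HP : (1:ℂ) ∈ HP := by change 0 < (1:ℂ).re; simp
  have hC0 : 0 ≤ C := (norm_nonneg _).trans (hC 1 (by simp) (by simp))
  refine partB (u := fun ξ => ‖ft (a 1) ξ‖^2) (B := C * C) ⟨?_, ?_, ?_, ?_, ?_, ?_⟩
  · exact (continuous_ft (hint 1)).norm.pow 2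
  · intro ξ; positivity
  · have h1 := ((tendsto_ft_cocompact (a 1)).mono_left atTop_le_cocompact).norm.pow 2
    simpa using h1
  · have h1 := ((tendsto_ft_cocompact (a 1)).mono_left atBot_le_cocompact).norm.pow 2
    simpa using h1
  · obtain ⟨t0, ht0, hat0⟩ := hne
    have h1 : ∃ ξ, ft (a t0) ξ ≠ 0 := by
      by_contra hcon
      push Not at hcon
      have h2 := ft_injective (hint t0) hcon
      exact hat0 ((Lp.eq_zero_iff_ae_eq_zero).mpr h2)
    obtain ⟨ξ, hξ⟩ := h1
    obtain ⟨γ, hγ⟩ := hexp ξ ⟨t0, ht0, hξ⟩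
    refine ⟨ξ, ?_⟩
    have h3 : ft (a 1) ξ ≠ 0 := by rw [hγ 1 h1HP]; exact Complex.exp_ne_zero _
    have := norm_pos_iff.mpr h3
    positivity
  · intro t ht ht1
    have ht' : 0 < ((starRingEnd ℂ) t).re := by simpa using ht
    have ht1' : ‖(starRingEnd ℂ) t‖ ≤ 1 := by simpa using ht1
    obtain ⟨s1, s2, s3⟩ := star_facts (hint ((starRingEnd ℂ) t))
    obtain ⟨c1, c2, c3⟩ := conv_facts (hint t) s1
    refine ⟨_, c1, ?_, fun ξ hξ => ?_⟩
    · refine c2.trans ?_
      rw [s2, hnorm, hnorm]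
      exact mul_le_mul (hC t ht ht1) (hC _ ht' ht1') (norm_nonneg _) hC0
    · rw [c3, s3]
      have h3 : ft (a 1) ξ ≠ 0 := by
        intro h0
        simp [h0] at hξ
      obtain ⟨γ, hγ⟩ := hexp ξ ⟨1, h1HP, h3⟩
      rw [hγ t ht, hγ _ ht', hγ 1 h1HP, ← Complex.exp_conj, ← Complex.exp_add, one_mul,
        Complex.norm_exp, ← Real.exp_nat_mul, Real.log_exp]
      congr 1
      rw [map_mul, Complex.conj_conj, ← mul_add, Complex.add_conj]
      push_cast
      ring

end Pool.U873.HD
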