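import Pool.Agent.U873.HD.Limit

open MeasureTheory Filter Topology Complex
open scoped ENNReal NNReal Classical

namespace Pool.U873.HD

lemma norm_circle_exp (x : ℝ) : ‖(Circle.exp x : ℂ)‖ = 1 := Circle.norm_coe _

lemma integrable_ft {g : ℝ → ℂ} (hg : Integrable g) (ξ : ℝ) :
    Integrable (fun x => (Circle.exp (-(ξ * x)) : ℂ) * g x) := by
  have hc : Continuous fun x : ℝ => (Circle.exp (-(ξ * x)) : ℂ) := by fun_prop
  refine hg.norm.mono' (hc.aestronglyMeasurable.mul hg.aestronglyMeasurable) ?_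
  refine ae_of_all _ fun x => ?_
  rw [norm_mul, norm_circle_exp, one_mul]

/-- Mass cannot live in infinitely many annuli. -/
lemma annuli (G : ℝ → ℝ → ℂ) (ε1 : ℝ) (hε1 : 0 < ε1)
    (hi : ∀ ε, 0 < ε → ε ≤ ε1 → Integrable (G ε)) (B : ℝ)
    (hB : ∀ ε, 0 < ε → ε ≤ ε1 → ∫ x, ‖G ε x‖ ≤ B) (c : ℝ) (hc : 0 < c)
    (H : ∀ r : ℝ, 0 ≤ r → ∃ R : ℝ, r < R ∧ ∃ ε0 : ℝ, 0 < ε0 ∧ ∀ ε, 0 < ε → ε ≤ ε0 → ε ≤ ε1 →
      c ≤ ∫ x in {x : ℝ | r < |x| ∧ |x| ≤ R}, ‖G ε x‖) : False := by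
  have key : ∀ J : ℕ, ∃ R : ℝ, 0 ≤ R ∧ ∃ ε0 : ℝ, 0 < ε0 ∧ ∀ ε, 0 < ε → ε ≤ ε0 → ε ≤ ε1 →
      J * c ≤ ∫ x in {x : ℝ | |x| ≤ R}, ‖G ε x‖ := by
    intro J
    induction J with
    | zero => exact ⟨0, le_rfl, 1, one_pos, fun ε _ _ _ => by
        simp⟩
    | succ J ih =>
      obtain ⟨r, hr, ε0, hε0, h1⟩ := ih
      obtain ⟨R, hR, ε0', hε0', h2⟩ := H r hr
      refine ⟨R, hr.trans hR.le, min ε0 ε0', lt_min hε0 hε0', fun ε h3 h4 h5 => ?_⟩
      have h6 := h1 ε h3 (h4.trans (min_le_left _ _)) h5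
      have h7 := h2 ε h3 (h4.trans (min_le_right _ _)) h5
      have hun : {x : ℝ | |x| ≤ R} = {x : ℝ | |x| ≤ r} ∪ {x : ℝ | r < |x| ∧ |x| ≤ R} := by
        ext x
        simp only [Set.mem_ofPred_eq, Set.mem_union]
        constructor
        · intro h
          rcases le_or_gt |x| r with h' | h'
          · exact Or.inl h'
          · exact Or.inr ⟨h', h⟩
        · rintro (h | h)
          · exact h.trans hR.le
          · exact h.2
      have hms1 : MeasurableSet {x : ℝ | r < |x| ∧ |x| ≤ R} :=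
        (measurableSet_lt measurable_const measurable_id.abs).inter
          (measurableSet_le measurable_id.abs measurable_const)
      have hdis : Disjoint {x : ℝ | |x| ≤ r} {x : ℝ | r < |x| ∧ |x| ≤ R} := by
        rw [Set.disjoint_left]
        intro x h h'
        exact absurd h'.1 (not_lt.mpr h)
      rw [hun, setIntegral_union hdis hms1 (hi ε h3 h5).norm.integrableOn
        (hi ε h3 h5).norm.integrableOn]
      push_cast
      linarith
  obtain ⟨J, hJ⟩ := exists_nat_gt (B / c)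
  obtain ⟨R, hR, ε0, hε0, h⟩ := key J
  have h1 := h (min ε0 ε1) (lt_min hε0 hε1) (min_le_left _ _) (min_le_right _ _)
  have h2 : ∫ x in {x : ℝ | |x| ≤ R}, ‖G (min ε0 ε1) x‖ ≤ ∫ x, ‖G (min ε0 ε1) x‖ :=
    setIntegral_le_integral (hi _ (lt_min hε0 hε1) (min_le_right _ _)).norm
      (ae_of_all _ fun _ => norm_nonneg _)
  have h3 := hB (min ε0 ε1) (lt_min hε0 hε1) (min_le_right _ _)
  rw [div_lt_iff₀ hc] at hJ
  linarith

lemma osc' (x h : ℝ) (hx : x ≠ 0) :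
    ‖∫ s in (0:ℝ)..h, (Circle.exp (-(s * x)) : ℂ)‖ ≤ 2 / |x| := by
  have e : ∀ s : ℝ, (Circle.exp (-(s * x)) : ℂ) = Complex.exp ((-x * I : ℂ) * s) := by
    intro s; rw [Circle.coe_exp]; congr 1; push_cast; ring
  have hcI : (-x * I : ℂ) ≠ 0 := mul_ne_zero (neg_ne_zero.mpr (by exact_mod_cast hx)) I_ne_zero
  simp_rw [e]
  rw [integral_exp_mul_complex hcI, norm_div, norm_mul, Complex.norm_I, mul_one, norm_neg,
    Complex.norm_real, Real.norm_eq_abs]
  have h1 : ∀ t : ℝ, ‖Complex.exp (-x * I * (t:ℂ))‖ = 1 := by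
    intro t
    have : (-x * I * (t:ℂ)) = ((-x * t : ℝ) : ℂ) * I := by push_cast; ring
    rw [this, Complex.norm_exp_ofReal_mul_I]
  gcongr
  refine (norm_sub_le _ _).trans ?_
  rw [h1, h1]
  norm_num

/-- The averaged difference kernel. -/
noncomputable def K (ξ ξ' h x : ℝ) : ℂ :=
  ((Circle.exp (-(ξ * x)) : ℂ) - (Circle.exp (-(ξ' * x)) : ℂ)) *
    ∫ s in (0:ℝ)..h, (Circle.exp (-(s * x)) : ℂ)

lemma K_bound_diff (ξ ξ' h x : ℝ) (hh : 0 ≤ h) : ‖K ξ ξ' h x‖ ≤ |ξ - ξ'| * |x| * h := by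
  unfold K
  rw [norm_mul]
  have h1 : ‖(Circle.exp (-(ξ * x)) : ℂ) - (Circle.exp (-(ξ' * x)) : ℂ)‖ ≤ |ξ - ξ'| * |x| := by
    rw [Circle.coe_exp, Circle.coe_exp]
    refine (norm_exp_sub_exp _ _).trans (le_of_eq ?_)
    rw [← abs_mul, ← abs_neg]
    congr 1; ring
  have h2 : ‖∫ s in (0:ℝ)..h, (Circle.exp (-(s * x)) : ℂ)‖ ≤ h := by
    have := intervalIntegral.norm_integral_le_of_norm_le_const (a := 0) (b := h) (C := 1)
      (f := fun s => (Circle.exp (-(s * x)) : ℂ)) (fun s _ => (norm_circle_exp _).le)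
    simpa [abs_of_nonneg hh] using this
  gcongr

lemma norm_diff_le_two (a b : ℝ) : ‖(Circle.exp a : ℂ) - (Circle.exp b : ℂ)‖ ≤ 2 := by
  refine (norm_sub_le _ _).trans ?_
  rw [norm_circle_exp, norm_circle_exp]; norm_num

lemma K_bound_two (ξ ξ' h x : ℝ) (hh : 0 ≤ h) : ‖K ξ ξ' h x‖ ≤ 2 * h := by
  unfold K
  rw [norm_mul]
  have h2 : ‖∫ s in (0:ℝ)..h, (Circle.exp (-(s * x)) : ℂ)‖ ≤ h := by
    have := intervalIntegral.norm_integral_le_of_norm_le_const (a := 0) (b := h) (C := 1)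
      (f := fun s => (Circle.exp (-(s * x)) : ℂ)) (fun s _ => (norm_circle_exp _).le)
    simpa [abs_of_nonneg hh] using this
  have h1 := norm_diff_le_two (-(ξ * x)) (-(ξ' * x))
  gcongr

lemma K_bound_far (ξ ξ' h x : ℝ) (hx : x ≠ 0) : ‖K ξ ξ' h x‖ ≤ 4 / |x| := by
  unfold K
  rw [norm_mul]
  have h2 := osc' x h hx
  have h1 := norm_diff_le_two (-(ξ * x)) (-(ξ' * x))
  calc _ ≤ 2 * (2 / |x|) := by gcongr
    _ = 4 / |x| := by ring

/-- Fubini -/
lemma ft_average {g : ℝ → ℂ} (hg : Integrable g) (ξ ξ' h : ℝ) (hh : 0 ≤ h) :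
    ∫ s in (0:ℝ)..h, (ft g (ξ + s) - ft g (ξ' + s)) = ∫ x, K ξ ξ' h x * g x := by
  have e1 : ∀ s : ℝ, ft g (ξ + s) - ft g (ξ' + s) = ∫ x,
      (((Circle.exp (-(ξ * x)) : ℂ) - (Circle.exp (-(ξ' * x)) : ℂ)) *
        (Circle.exp (-(s * x)) : ℂ)) * g x := by
    intro s
    unfold ft
    rw [← integral_sub (integrable_ft hg _) (integrable_ft hg _)]
    refine integral_congr_ae (ae_of_all _ fun x => ?_)
    simp only
    have e2 : ∀ ζ : ℝ, (Circle.exp (-((ζ + s) * x)) : ℂ) =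
        (Circle.exp (-(ζ * x)) : ℂ) * (Circle.exp (-(s * x)) : ℂ) := by
      intro ζ
      rw [← Circle.coe_mul, ← Circle.exp_add]
      congr 2; ring
    rw [e2, e2]
    ring
  simp_rw [e1]
  rw [intervalIntegral.integral_of_le hh]
  rw [integral_integral_swap]
  · refine integral_congr_ae (ae_of_all _ fun x => ?_)
    simp only
    unfold K
    rw [integral_mul_const, integral_const_mul, intervalIntegral.integral_of_le hh]
  · have hgx : Integrable (fun p : ℝ × ℝ => g p.2) ((volume.restrict (Set.Ioc 0 h)).prod volume) :=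
      hg.comp_snd _
    have hc : Continuous fun p : ℝ × ℝ =>
        (((Circle.exp (-(ξ * p.2)) : ℂ) - (Circle.exp (-(ξ' * p.2)) : ℂ)) *
        (Circle.exp (-(p.1 * p.2)) : ℂ)) := by fun_prop
    refine (hgx.norm.const_mul 2).mono' (hc.aestronglyMeasurable.mul hgx.aestronglyMeasurable) ?_
    refine ae_of_all _ fun p => ?_
    simp only [Function.uncurry]
    rw [norm_mul, norm_mul, norm_circle_exp, mul_one]
    exact mul_le_mul_of_nonneg_right (norm_diff_le_two _ _) (norm_nonneg _)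

end Pool.U873.HD
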