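import Pool.Agent.U873.HD.Unif

open MeasureTheory Filter Topology Complex
open scoped ENNReal NNReal Classical

namespace Pool.U873.HD

lemma all_pos {u : ℝ → ℝ} {B : ℝ} (H : HB u B) : ∀ ξ, 0 < u ξ := by
  obtain ⟨ξ0, hξ0⟩ := H.ne
  by_contra hcon
  push Not at hcon
  obtain ⟨ξ1, hξ1⟩ := hcon
  obtain ⟨η, hη, hun⟩ := unif H 1 one_pos le_rfl
  set Z : Set ℝ := {ξ | u ξ ≤ 0} with hZ
  have hZc : IsClosed Z := isClosed_le H.cont continuous_const
  obtain ⟨e, heZ, he⟩ := hZc.exists_infDist_eq_dist ⟨ξ1, hξ1⟩ ξ0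
  set d : ℝ := dist ξ0 e with hd
  have hd0 : 0 < d := by
    rw [hd, dist_pos]
    rintro rfl
    exact absurd heZ (not_le.mpr hξ0)
  have hball : ∀ z, z ∈ Metric.ball ξ0 d → 0 < u z := by
    intro z hz
    by_contra h
    have hzZ : z ∈ Z := not_lt.mp h
    have h1 := Metric.infDist_le_dist_of_mem (x := ξ0) hzZ
    rw [he, dist_comm] at h1
    exact absurd (Metric.mem_ball.mp hz) (not_lt.mpr h1)
  have hue : u e = 0 := le_antisymm heZ (H.nn e)
  have hdabs : |ξ0 - e| = d := by rw [hd, Real.dist_eq]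
  set s0 : ℝ := min 1 (η / d) with hs0
  have hs0pos : 0 < s0 := lt_min one_pos (by positivity)
  have hs01 : s0 ≤ 1 := min_le_left _ _
  have hs0d : s0 * d ≤ η := by
    calc s0 * d ≤ η / d * d := by gcongr; exact min_le_right _ _
      _ = η := by field_simp
  have hmem : ∀ s, 0 < s → s ≤ 1 → e + s * (ξ0 - e) ∈ Metric.ball ξ0 d := by
    intro s h1 h2
    rw [Metric.mem_ball, Real.dist_eq]
    have : e + s * (ξ0 - e) - ξ0 = -((1 - s) * (ξ0 - e)) := by ring
    rw [this, abs_neg, abs_mul, hdabs, abs_of_nonneg (by linarith)]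
    nlinarith
  have hlb : ∀ s, 0 < s → s ≤ s0 → u (e + s0 * (ξ0 - e)) * Real.exp (-1) ≤ u (e + s * (ξ0 - e)) := by
    intro s h1 h2
    have p1 := hball _ (hmem s h1 (h2.trans hs01))
    have p2 := hball _ (hmem s0 hs0pos hs01)
    have h3 := hun (e + s * (ξ0 - e)) (e + s0 * (ξ0 - e)) (by
      have : e + s * (ξ0 - e) - (e + s0 * (ξ0 - e)) = -((s0 - s) * (ξ0 - e)) := by ring
      rw [this, abs_neg, abs_mul, hdabs, abs_of_nonneg (by linarith)]
      nlinarith) (by
      intro z hz
      refine hball z ?_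
      exact ((convex_ball ξ0 d).ordConnected.uIcc_subset (hmem s h1 (h2.trans hs01))
        (hmem s0 hs0pos hs01)) hz)
    have h4 := (abs_lt.mp h3).1
    have h5 : Real.log (u (e + s0 * (ξ0 - e)) * Real.exp (-1)) ≤ Real.log (u (e + s * (ξ0 - e))) := by
      rw [Real.log_mul p2.ne' (Real.exp_pos _).ne', Real.log_exp]
      linarith
    exact (Real.log_le_log_iff (by positivity) p1).mp h5
  have hlim : Tendsto (fun s : ℝ => u (e + s * (ξ0 - e))) (𝓝[>] 0) (𝓝 (u e)) := by
    have hc : Continuous fun s : ℝ => u (e + s * (ξ0 - e)) := H.cont.comp (by fun_prop)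
    have := hc.tendsto 0
    rw [zero_mul, add_zero] at this
    exact this.mono_left nhdsWithin_le_nhds
  have hge : u (e + s0 * (ξ0 - e)) * Real.exp (-1) ≤ u e := by
    refine ge_of_tendsto hlim ?_
    have : Set.Ioc 0 s0 ∈ 𝓝[>] (0:ℝ) := Ioc_mem_nhdsGT hs0pos
    filter_upwards [this] with s hs
    exact hlb s hs.1 hs.2
  rw [hue] at hge
  have p2 := hball _ (hmem s0 hs0pos hs01)
  have : 0 < u (e + s0 * (ξ0 - e)) * Real.exp (-1) := by positivity
  linarith

theorem partB {u : ℝ → ℝ} {B : ℝ} (H : HB u B) : False := by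
  have hpos := all_pos H
  obtain ⟨η, hη, hun⟩ := unif H (1/2) (by norm_num) (by norm_num)
  set ψ : ℤ → ℝ := fun n => - Real.log (u (η * n)) with hψ
  have hlogtop : ∀ (l : Filter ℝ), Tendsto u l (𝓝 0) → Tendsto (fun ξ => - Real.log (u ξ)) l atTop := by
    intro l hl
    have h1 : Tendsto u l (𝓝[>] 0) :=
      tendsto_nhdsWithin_of_tendsto_nhds_of_eventually_within _ hl (Eventually.of_forall hpos)
    exact tendsto_neg_atBot_atTop.comp (Real.tendsto_log_nhdsGT_zero.comp h1)
  refine partC ψ ?_ ?_ ?_ ?_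
  · intro n
    have h1 := hun (η * ((n + 1 : ℤ) : ℝ)) (η * n) (by
      push_cast
      have : η * ((n:ℝ) + 1) - η * n = η := by ring
      rw [this, abs_of_pos hη]) (fun z _ => hpos z)
    simp only [hψ]
    rw [neg_sub_neg, abs_sub_comm]
    exact h1.le
  · exact (hlogtop atTop H.top).comp
      (Tendsto.const_mul_atTop hη tendsto_intCast_atTop_atTop)
  · exact (hlogtop atBot H.bot).comp
      (Tendsto.const_mul_atBot hη (tendsto_intCast_atBot_iff.2 tendsto_id))
  · intro y hy
    have hy1 : 0 < 1 - |y| := by linarith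
    have hg : ∀ k : ℕ, ∃ g : ℝ → ℂ, Integrable g ∧ ∫ x, ‖g x‖ ≤ B ∧
        ∀ ξ, ft g ξ = Complex.exp ((((1 - |y|) / (k + 1) : ℝ) + (y:ℂ) * I) * (Real.log (u ξ) : ℂ)) := by
      intro k
      obtain ⟨g, h1, h2, h3⟩ := H.rep ((((1 - |y|) / (k + 1) : ℝ) : ℂ) + (y:ℂ) * I) (by
        simp only [Complex.add_re, Complex.ofReal_re, Complex.mul_re, Complex.I_re, mul_zero,
          Complex.ofReal_im, Complex.I_im, mul_one, sub_self, add_zero]
        positivity) (by
        refine (norm_add_le _ _).trans ?_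
        rw [norm_mul, Complex.norm_I, mul_one, Complex.norm_real, Complex.norm_real,
          Real.norm_of_nonneg (by positivity), Real.norm_eq_abs]
        have : (1 - |y|) / ((k:ℝ) + 1) ≤ 1 - |y| := by
          rw [div_le_iff₀ (by positivity)]
          nlinarith [Nat.cast_nonneg (α := ℝ) k]
        linarith)
      exact ⟨g, h1, h2, fun ξ => h3 ξ (hpos ξ)⟩
    choose g h1 h2 h3 using hg
    refine rep_of_limit g h1 B h2 _ η fun n => ?_
    simp_rw [h3]
    have e : E ψ y n = Complex.exp (((0:ℝ) + (y:ℂ) * I) * (Real.log (u (η * n)) : ℂ)) := by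
      unfold E
      congr 1
      simp only [hψ]
      push_cast
      ring
    rw [e]
    refine (Complex.continuous_exp.tendsto _).comp ?_
    refine Tendsto.mul_const _ ?_
    refine Tendsto.add_const _ ?_
    refine (Complex.continuous_ofReal.tendsto _).comp ?_
    refine tendsto_const_nhds.div_atTop ?_
    exact tendsto_atTop_add_const_right _ _ tendsto_natCast_atTop_atTop

end Pool.U873.HD
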