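import Pool.Agent.U873.HD.AP

open MeasureTheory Filter Topology Complex
open scoped ENNReal NNReal Classical

namespace Pool.U873.HD

def Rep (F : ℤ → ℂ) : Prop := ∃ (X : Type) (_ : MeasurableSpace X) (ν : Measure X)
  (ζ : X → Circle) (h : X → ℂ), RepD F X ν ζ h

noncomputable def E (ψ : ℤ → ℝ) (y : ℝ) (n : ℤ) : ℂ := Complex.exp ((-(y * ψ n) : ℝ) * I)

lemma norm_E (ψ : ℤ → ℝ) (y : ℝ) (n : ℤ) : ‖E ψ y n‖ = 1 := by
  unfold E; exact Complex.norm_exp_ofReal_mul_I _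

lemma norm_exp_sub_exp (s t : ℝ) : ‖Complex.exp ((s:ℝ) * I) - Complex.exp ((t:ℝ) * I)‖ ≤ |s - t| := by
  have h1 : Complex.exp ((s:ℝ) * I) - Complex.exp ((t:ℝ) * I) =
      Complex.exp ((t:ℝ) * I) * (Complex.exp (I * ((s - t : ℝ) : ℂ)) - 1) := by
    rw [mul_sub, ← Complex.exp_add, mul_one]
    congr 2
    push_cast; ring
  rw [h1, norm_mul, Complex.norm_exp_ofReal_mul_I, one_mul]
  have := Real.norm_exp_I_mul_ofReal_sub_one_le (x := s - t)
  simpa using this

/-- uniform slope zero -/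
lemma slope (ψ : ℤ → ℝ) (hstep : ∀ n, |ψ (n+1) - ψ n| ≤ 1/2) (htop : Tendsto ψ atTop atTop)
    (hbot : Tendsto ψ atBot atTop) (hrep : ∀ y : ℝ, |y| < 1 → Rep (E ψ y)) {ε : ℝ} (hε : 0 < ε) :
    ∃ N0 : ℕ, ∀ N, N0 ≤ N → ∀ a : ℤ, |ψ (a + N) - ψ a| ≤ ε * N := by
  set y : ℝ := min (1/2) (ε/8) with hy
  have hy0 : 0 < y := by rw [hy]; positivity
  have hy1 : y ≤ 1/2 := min_le_left _ _
  have hy2 : y ≤ ε/8 := min_le_right _ _
  obtain ⟨X, _, ν, ζ, h, R⟩ := hrep y (by rw [abs_of_pos hy0]; linarith)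
  have RR := R.shift.mul R.conj
  obtain ⟨N1, hN1, hmean⟩ := RR.mean (ε := y^2) (by positivity)
  obtain ⟨N2, hN2⟩ := eventually_atTop.mp
    ((htop.comp tendsto_natCast_atTop_atTop : Tendsto (fun n : ℕ => ψ n) atTop atTop).eventually_ge_atTop (ψ 0))
  have hneg : Tendsto (fun n : ℕ => ψ (-(n:ℤ))) atTop atTop :=
    hbot.comp (tendsto_neg_atTop_atBot.comp tendsto_natCast_atTop_atTop)
  obtain ⟨N3, hN3⟩ := eventually_atTop.mp (hneg.eventually_ge_atTop (ψ 0))
  refine ⟨max N1 (max N2 N3), fun N hN a => ?_⟩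
  have hNN1 : N1 ≤ N := (le_max_left _ _).trans hN
  have hNN2 : N2 ≤ N := ((le_max_left _ _).trans (le_max_right _ _)).trans hN
  have hNN3 : N3 ≤ N := ((le_max_right _ _).trans (le_max_right _ _)).trans hN
  have hNpos : 0 < N := lt_of_lt_of_le hN1 hNN1
  have hNr : (0:ℝ) < N := by exact_mod_cast hNpos
  -- approximation of the average by the slope
  have happ : ∀ b : ℤ, ‖av (fun n => E ψ y (n+1) * (starRingEnd ℂ) (E ψ y n)) N b -
      (1 - ((y * ((ψ (b + N) - ψ b) / N) : ℝ) : ℂ) * I)‖ ≤ y^2 := by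
    intro b
    have e0 : ∀ n : ℤ, E ψ y (n+1) * (starRingEnd ℂ) (E ψ y n) =
        Complex.exp ((-(y * (ψ (n+1) - ψ n)) : ℝ) * I) := by
      intro n
      unfold E
      rw [← Complex.exp_conj, ← Complex.exp_add, map_mul, Complex.conj_I, Complex.conj_ofReal]
      congr 1
      push_cast
      ring
    have e1 : (1 - ((y * ((ψ (b + N) - ψ b) / N) : ℝ) : ℂ) * I) =
        av (fun n => 1 - ((y * (ψ (n+1) - ψ n) : ℝ) : ℂ) * I) N b := by
      unfold av
      rw [Finset.sum_sub_distrib, ← Finset.sum_mul, ← Complex.ofReal_sum, ← Finset.mul_sum]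
      have e2 : ∑ j ∈ Finset.range N, (ψ (b + (j:ℤ) + 1) - ψ (b + (j:ℤ))) = ψ (b + N) - ψ b := by
        have := Finset.sum_range_sub (fun j : ℕ => ψ (b + (j:ℤ))) N
        simp only [Nat.cast_zero, add_zero] at this
        rw [← this]
        refine Finset.sum_congr rfl fun j _ => ?_
        push_cast
        rw [add_assoc]
      rw [e2]
      have hNc : (N:ℂ) ≠ 0 := by exact_mod_cast hNpos.ne'
      simp only [Finset.sum_const, Finset.card_range, nsmul_eq_mul, mul_one]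
      push_cast
      field_simp
    rw [e1]
    have e3 : av (fun n => E ψ y (n+1) * (starRingEnd ℂ) (E ψ y n)) N b -
        av (fun n => 1 - ((y * (ψ (n+1) - ψ n) : ℝ) : ℂ) * I) N b =
        av (fun n => Complex.exp ((-(y * (ψ (n+1) - ψ n)) : ℝ) * I) - 1 -
          ((-(y * (ψ (n+1) - ψ n)) : ℝ) * I)) N b := by
      unfold av
      rw [← mul_sub, ← Finset.sum_sub_distrib]
      congr 1
      refine Finset.sum_congr rfl fun j _ => ?_
      beta_reduce
      rw [e0]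
      push_cast
      ring
    rw [e3]
    refine norm_av_le _ _ _ _ (by positivity) fun n => ?_
    have h1 : ‖((-(y * (ψ (n+1) - ψ n)) : ℝ) : ℂ) * I‖ ≤ y := by
      rw [norm_mul, Complex.norm_I, mul_one, Complex.norm_real, Real.norm_eq_abs, abs_neg, abs_mul,
        abs_of_pos hy0]
      have := hstep n
      nlinarith [abs_nonneg (ψ (n+1) - ψ n)]
    have h2 := Complex.norm_exp_sub_one_sub_id_le (x := ((-(y * (ψ (n+1) - ψ n)) : ℝ) : ℂ) * I)
      (h1.trans (by linarith))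
    exact h2.trans (pow_le_pow_left₀ (norm_nonneg _) h1 2)
  have hcmp : ∀ b c : ℤ, y * |(ψ (b + N) - ψ b) / N - (ψ (c + N) - ψ c) / N| ≤ 4 * y^2 := by
    intro b c
    set A := ∫ p, (if ζ p.1 * (ζ p.2)⁻¹ = 1 then (1:ℂ) else 0) *
      ((ζ p.1:ℂ) * h p.1 * (starRingEnd ℂ) (h p.2)) ∂(ν.prod ν) with hA
    set u := av (fun n => E ψ y (n+1) * (starRingEnd ℂ) (E ψ y n)) N with hu
    have h1 := hmean N hNN1 b
    have h2 := hmean N hNN1 c
    have h3 := happ b
    have h4 := happ c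
    have h5 : ((y * ((ψ (c + N) - ψ c) / N) : ℝ) : ℂ) * I - ((y * ((ψ (b + N) - ψ b) / N) : ℝ) : ℂ) * I
        = (u b - A) - (u c - A) - (u b - (1 - ((y * ((ψ (b + N) - ψ b) / N) : ℝ) : ℂ) * I))
          + (u c - (1 - ((y * ((ψ (c + N) - ψ c) / N) : ℝ) : ℂ) * I)) := by ring
    have h6 : ‖((y * ((ψ (c + N) - ψ c) / N) : ℝ) : ℂ) * I - ((y * ((ψ (b + N) - ψ b) / N) : ℝ) : ℂ) * I‖
        ≤ y^2 + y^2 + y^2 + y^2 := by
      rw [h5]
      refine (norm_add_le _ _).trans (add_le_add ?_ h4)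
      refine (norm_sub_le _ _).trans (add_le_add ?_ h3)
      exact (norm_sub_le _ _).trans (add_le_add h1 h2)
    rw [← sub_mul, norm_mul, Complex.norm_I, mul_one, ← Complex.ofReal_sub, Complex.norm_real,
      Real.norm_eq_abs, ← mul_sub, abs_mul, abs_of_pos hy0, abs_sub_comm] at h6
    linarith
  have hcmp' : ∀ b c : ℤ, |(ψ (b + N) - ψ b) / N - (ψ (c + N) - ψ c) / N| ≤ ε := by
    intro b c
    have h1 := hcmp b c
    have h2 : |(ψ (b + N) - ψ b) / N - (ψ (c + N) - ψ c) / N| ≤ 4 * y := by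
      by_contra hcon
      push Not at hcon
      nlinarith
    linarith
  have hlow : 0 ≤ (ψ ((0:ℤ) + N) - ψ 0) / N := by
    rw [zero_add]
    have : ψ 0 ≤ ψ (N:ℤ) := hN2 N hNN2
    exact div_nonneg (by linarith) hNr.le
  have hup : (ψ (-(N:ℤ) + N) - ψ (-(N:ℤ))) / N ≤ 0 := by
    rw [neg_add_cancel]
    have := hN3 N hNN3
    exact div_nonpos_of_nonpos_of_nonneg (by linarith) hNr.le
  have h1 := abs_le.mp (hcmp' a 0)
  have h2 := abs_le.mp (hcmp' a (-(N:ℤ)))
  have h3 : |(ψ (a + N) - ψ a) / N| ≤ ε := abs_le.mpr ⟨by linarith, by linarith⟩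
  rw [abs_div, abs_of_pos hNr, div_le_iff₀ hNr] at h3
  exact h3

def UMZ (F : ℤ → ℂ) : Prop := ∀ ε : ℝ, 0 < ε → ∃ N0 : ℕ, ∀ N, N0 ≤ N → ∀ a : ℤ, ‖av F N a‖ ≤ ε

lemma continuous_avE (ψ : ℤ → ℝ) (N : ℕ) (a : ℤ) : Continuous fun y : ℝ => av (E ψ y) N a := by
  unfold av E
  fun_prop

lemma osc (c : ℝ) (hc : c ≠ 0) :
    ‖∫ y in (0:ℝ)..(1/2), Complex.exp ((y * c : ℝ) * I)‖ ≤ 2 / |c| := by
  have e : ∀ y : ℝ, Complex.exp ((y * c : ℝ) * I) = Complex.exp ((c * I : ℂ) * y) := by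
    intro y; congr 1; push_cast; ring
  have hcI : (c * I : ℂ) ≠ 0 := mul_ne_zero (by exact_mod_cast hc) I_ne_zero
  simp_rw [e]
  rw [integral_exp_mul_complex hcI, norm_div, norm_mul, Complex.norm_I, mul_one,
    Complex.norm_real, Real.norm_eq_abs]
  have h1 : ∀ t : ℝ, ‖Complex.exp (c * I * (t:ℂ))‖ = 1 := by
    intro t
    have : (c * I * (t:ℂ)) = ((c * t : ℝ) : ℂ) * I := by push_cast; ring
    rw [this, Complex.norm_exp_ofReal_mul_I]
  gcongr
  refine (norm_sub_le _ _).trans ?_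
  rw [h1, h1]
  norm_num

lemma mean_zero (ψ : ℤ → ℝ) (htop : Tendsto ψ atTop atTop)
    (hrep : ∀ y : ℝ, |y| < 1 → Rep (E ψ y)) :
    ∀ᵐ y ∂(volume.restrict (Set.Ioc (0:ℝ) (1/2))), UMZ (E ψ y) := by
  have hA : ∀ y : ℝ, ∃ A : ℂ, y ∈ Set.Ioc (0:ℝ) (1/2) → ∀ ε : ℝ, 0 < ε → ∃ N0 : ℕ, ∀ N, N0 ≤ N →
      ∀ a : ℤ, ‖av (E ψ y) N a - A‖ ≤ ε := by
    intro y
    by_cases hy : y ∈ Set.Ioc (0:ℝ) (1/2)
    · obtain ⟨X, _, ν, ζ, h, R⟩ := hrep y (by rw [abs_of_pos hy.1]; linarith [hy.2])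
      refine ⟨∫ x, (if ζ x = 1 then (1:ℂ) else 0) * h x ∂ν, fun _ ε hε => ?_⟩
      obtain ⟨N0, _, h2⟩ := R.mean hε
      exact ⟨N0, h2⟩
    · exact ⟨0, fun h => absurd h hy⟩
  choose A hA using hA
  -- far away windows
  have hfar : ∀ N : ℕ, ∃ a : ℤ, ∀ i j : ℕ, i < N → (N:ℝ) ≤ ψ (a + j) - ψ i := by
    intro N
    obtain ⟨b, hb⟩ := eventually_atTop.mp
      (htop.eventually_ge_atTop (∑ i ∈ Finset.range N, |ψ i| + N))
    refine ⟨b, fun i j hi => ?_⟩
    have h1 := hb (b + j) (by omega)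
    have h2 : |ψ i| ≤ ∑ i ∈ Finset.range N, |ψ i| :=
      Finset.single_le_sum (f := fun i : ℕ => |ψ i|) (fun _ _ => abs_nonneg _)
        (Finset.mem_range.mpr hi)
    have h3 := le_abs_self (ψ i)
    linarith
  choose b hb using hfar
  let g : ℕ → ℝ → ℂ := fun N y => av (E ψ y) N 0 * (starRingEnd ℂ) (av (E ψ y) N (b N))
  have hgc : ∀ N, Continuous (g N) := fun N =>
    (continuous_avE ψ N 0).mul (Complex.continuous_conj.comp (continuous_avE ψ N (b N)))
  have hgb : ∀ N y, ‖g N y‖ ≤ 1 := by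
    intro N y
    have h1 := norm_av_le (E ψ y) N 0 1 zero_le_one (fun n => (norm_E ψ y n).le)
    have h2 := norm_av_le (E ψ y) N (b N) 1 zero_le_one (fun n => (norm_E ψ y n).le)
    simp only [g, norm_mul, RCLike.norm_conj]
    exact mul_le_one₀ h1 (norm_nonneg _) h2
  have hlim : ∀ y ∈ Set.Ioc (0:ℝ) (1/2), Tendsto (fun N => g N y) atTop
      (𝓝 (A y * (starRingEnd ℂ) (A y))) := by
    intro y hy
    have h1 : Tendsto (fun N => av (E ψ y) N 0) atTop (𝓝 (A y)) := by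
      rw [Metric.tendsto_atTop]
      intro ε hε
      obtain ⟨N0, hN0⟩ := hA y hy (ε/2) (by positivity)
      refine ⟨N0, fun N hN => ?_⟩
      rw [dist_eq_norm]
      linarith [hN0 N hN 0]
    have h2 : Tendsto (fun N => av (E ψ y) N (b N)) atTop (𝓝 (A y)) := by
      rw [Metric.tendsto_atTop]
      intro ε hε
      obtain ⟨N0, hN0⟩ := hA y hy (ε/2) (by positivity)
      refine ⟨N0, fun N hN => ?_⟩
      rw [dist_eq_norm]
      linarith [hN0 N hN (b N)]
    exact h1.mul ((Complex.continuous_conj.tendsto _).comp h2)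
  have hI : Tendsto (fun N => ∫ y in Set.Ioc (0:ℝ) (1/2), g N y) atTop
      (𝓝 (∫ y in Set.Ioc (0:ℝ) (1/2), A y * (starRingEnd ℂ) (A y))) := by
    refine tendsto_integral_of_dominated_convergence (fun _ => 1) ?_ ?_ ?_ ?_
    · exact fun N => (hgc N).aestronglyMeasurable
    · exact integrable_const _
    · exact fun N => ae_of_all _ (hgb N)
    · rw [ae_restrict_iff' measurableSet_Ioc]
      exact ae_of_all _ hlim
  have hI0 : Tendsto (fun N => ∫ y in Set.Ioc (0:ℝ) (1/2), g N y) atTop (𝓝 0) := by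
    rw [tendsto_zero_iff_norm_tendsto_zero]
    have h2N : Tendsto (fun N : ℕ => 2 / (N:ℝ)) atTop (𝓝 0) :=
      tendsto_const_nhds.div_atTop tendsto_natCast_atTop_atTop
    refine squeeze_zero' (Eventually.of_forall fun _ => norm_nonneg _) ?_ h2N
    filter_upwards [eventually_gt_atTop 0] with N hN
    have hNr : (0:ℝ) < N := by exact_mod_cast hN
    rw [← intervalIntegral.integral_of_le (by norm_num : (0:ℝ) ≤ 1/2)]
    have e1 : ∀ y : ℝ, g N y = ((N:ℂ)⁻¹ * (N:ℂ)⁻¹) * ∑ i ∈ Finset.range N, ∑ j ∈ Finset.range N,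
        Complex.exp ((y * (ψ (b N + j) - ψ i) : ℝ) * I) := by
      intro y
      simp only [g, av, E, map_mul, map_sum, map_inv₀, Complex.conj_natCast]
      rw [mul_mul_mul_comm, Finset.sum_mul_sum]
      congr 1
      refine Finset.sum_congr rfl fun i _ => Finset.sum_congr rfl fun j _ => ?_
      rw [← Complex.exp_conj, ← Complex.exp_add, map_mul, Complex.conj_I, Complex.conj_ofReal]
      congr 1
      push_cast
      rw [zero_add]
      ring
    simp_rw [e1]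
    rw [intervalIntegral.integral_const_mul, intervalIntegral.integral_finsetSum
      (fun i _ => Continuous.intervalIntegrable (by fun_prop) _ _)]
    rw [norm_mul]
    have hs : ‖∑ i ∈ Finset.range N, ∫ y in (0:ℝ)..(1/2), ∑ j ∈ Finset.range N,
        Complex.exp ((y * (ψ (b N + j) - ψ i) : ℝ) * I)‖ ≤ N * (N * (2 / N)) := by
      calc _ ≤ ∑ i ∈ Finset.range N, ‖∫ y in (0:ℝ)..(1/2), ∑ j ∈ Finset.range N,
            Complex.exp ((y * (ψ (b N + j) - ψ i) : ℝ) * I)‖ := norm_sum_le _ _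
        _ ≤ ∑ i ∈ Finset.range N, (N * (2 / N) : ℝ) := by
            refine Finset.sum_le_sum fun i hi => ?_
            rw [intervalIntegral.integral_finsetSum
              (fun i _ => Continuous.intervalIntegrable (by fun_prop) _ _)]
            calc _ ≤ ∑ j ∈ Finset.range N, ‖∫ y in (0:ℝ)..(1/2),
                  Complex.exp ((y * (ψ (b N + j) - ψ i) : ℝ) * I)‖ := norm_sum_le _ _
              _ ≤ ∑ j ∈ Finset.range N, (2 / N : ℝ) := by
                  refine Finset.sum_le_sum fun j _ => ?_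
                  have h1 := hb N i j (Finset.mem_range.mp hi)
                  have h2 : 0 < ψ (b N + j) - ψ i := lt_of_lt_of_le hNr h1
                  refine (osc _ h2.ne').trans ?_
                  rw [abs_of_pos h2]
                  gcongr
              _ = N * (2 / N) := by simp
        _ = N * (N * (2 / N)) := by simp
    rw [norm_mul, norm_inv, Complex.norm_natCast]
    calc (N:ℝ)⁻¹ * (N:ℝ)⁻¹ * _ ≤ (N:ℝ)⁻¹ * (N:ℝ)⁻¹ * (N * (N * (2 / N))) := by gcongr
      _ = 2 / N := by field_simp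
  have hzero := tendsto_nhds_unique hI hI0
  have e2 : ∀ y, A y * (starRingEnd ℂ) (A y) = ((‖A y‖^2 : ℝ) : ℂ) := by
    intro y
    rw [Complex.mul_conj, Complex.normSq_eq_norm_sq]
  simp_rw [e2] at hzero
  rw [integral_complex_ofReal] at hzero
  have hzero' : ∫ y in Set.Ioc (0:ℝ) (1/2), ‖A y‖^2 = 0 := by exact_mod_cast hzero
  have hmeas : AEStronglyMeasurable (fun y => ‖A y‖^2) (volume.restrict (Set.Ioc (0:ℝ) (1/2))) := by
    have h1 : AEStronglyMeasurable (fun y => A y * (starRingEnd ℂ) (A y))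
        (volume.restrict (Set.Ioc (0:ℝ) (1/2))) := by
      refine aestronglyMeasurable_of_tendsto_ae atTop (fun N => (hgc N).aestronglyMeasurable) ?_
      rw [ae_restrict_iff' measurableSet_Ioc]
      exact ae_of_all _ hlim
    have h2 := h1.norm
    refine h2.congr (ae_of_all _ fun y => ?_)
    simp only [norm_mul, RCLike.norm_conj, sq]
  have hbd : ∀ y ∈ Set.Ioc (0:ℝ) (1/2), ‖A y‖^2 ≤ 1 := by
    intro y hy
    have h1 := hlim y hy
    have h2 : ‖A y * (starRingEnd ℂ) (A y)‖ ≤ 1 :=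
      le_of_tendsto h1.norm (Eventually.of_forall fun N => hgb N y)
    simpa [norm_mul, sq] using h2
  have hint : Integrable (fun y => ‖A y‖^2) (volume.restrict (Set.Ioc (0:ℝ) (1/2))) := by
    refine Integrable.mono' (integrable_const (1:ℝ)) hmeas ?_
    rw [ae_restrict_iff' measurableSet_Ioc]
    refine ae_of_all _ fun y hy => ?_
    rw [Real.norm_of_nonneg (by positivity)]
    exact hbd y hy
  have h0 := (integral_eq_zero_iff_of_nonneg (fun y => by positivity) hint).mp hzero'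
  have hmem : ∀ᵐ y ∂(volume.restrict (Set.Ioc (0:ℝ) (1/2))), y ∈ Set.Ioc (0:ℝ) (1/2) :=
    ae_restrict_mem measurableSet_Ioc
  filter_upwards [h0, hmem] with y hy hy2 ε hε
  have hA0 : A y = 0 := by simpa using hy
  obtain ⟨N0, hN0⟩ := hA y hy2 ε hε
  refine ⟨N0, fun N hN a => ?_⟩
  have := hN0 N hN a
  rwa [hA0, sub_zero] at this

end Pool.U873.HD
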