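import Pool.Agent.U873.HD.PartB

open MeasureTheory Filter Topology Complex
open scoped ENNReal NNReal Classical

namespace Pool.U873.HD

structure HB (u : ℝ → ℝ) (B : ℝ) : Prop where
  cont : Continuous u
  nn : ∀ ξ, 0 ≤ u ξ
  top : Tendsto u atTop (𝓝 0)
  bot : Tendsto u atBot (𝓝 0)
  ne : ∃ ξ, 0 < u ξ
  rep : ∀ t : ℂ, 0 < t.re → ‖t‖ ≤ 1 → ∃ g : ℝ → ℂ, Integrable g ∧ ∫ x, ‖g x‖ ≤ B ∧
    ∀ ξ, 0 < u ξ → ft g ξ = Complex.exp (t * (Real.log (u ξ) : ℂ))

lemma continuous_ft {g : ℝ → ℂ} (hg : Integrable g) : Continuous (ft g) := by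
  unfold ft
  refine continuous_of_dominated (bound := fun x => ‖g x‖) (fun ξ => (integrable_ft hg ξ).1) ?_
    hg.norm ?_
  · intro ξ
    refine ae_of_all _ fun x => ?_
    rw [norm_mul, norm_circle_exp, one_mul]
  · refine ae_of_all _ fun x => ?_
    fun_prop

lemma approx {v w ε c Q : ℝ} (hε : 0 < ε) (hQ : 0 ≤ Q) (hv : |v| ≤ Q) (hc : 0 < c) (hc2 : c ≤ 2)
    (hvw : |v - w| ≤ c / 4) (hε2 : ε ≤ c / (16 * (Q + 1))) :
    ‖Complex.exp (((ε:ℂ) + I / 2) * (v : ℂ)) - Complex.exp (((w / 2 : ℝ) : ℂ) * I)‖ ≤ c / 4 := by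
  have h1 : Complex.exp (((ε:ℂ) + I / 2) * (v : ℂ)) =
      ((Real.exp (ε * v) : ℝ) : ℂ) * Complex.exp (((v / 2 : ℝ) : ℂ) * I) := by
    rw [Complex.ofReal_exp, ← Complex.exp_add]
    congr 1
    push_cast
    ring
  have h2 : Complex.exp (((ε:ℂ) + I / 2) * (v : ℂ)) - Complex.exp (((w / 2 : ℝ) : ℂ) * I) =
      ((Real.exp (ε * v) - 1 : ℝ) : ℂ) * Complex.exp (((v / 2 : ℝ) : ℂ) * I) +
      (Complex.exp (((v / 2 : ℝ) : ℂ) * I) - Complex.exp (((w / 2 : ℝ) : ℂ) * I)) := by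
    rw [h1]; push_cast; ring
  have h3 : |ε * v| ≤ c / 16 := by
    rw [abs_mul, abs_of_pos hε]
    calc ε * |v| ≤ c / (16 * (Q + 1)) * (Q + 1) := by
          gcongr
          linarith
      _ = c / 16 := by field_simp
  have h4 := Real.abs_exp_sub_one_le (x := ε * v) (h3.trans (by linarith))
  rw [h2]
  refine (norm_add_le _ _).trans ?_
  have h5 : ‖((Real.exp (ε * v) - 1 : ℝ) : ℂ) * Complex.exp (((v / 2 : ℝ) : ℂ) * I)‖ ≤ c / 8 := by
    rw [norm_mul, Complex.norm_exp_ofReal_mul_I, mul_one, Complex.norm_real, Real.norm_eq_abs]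
    linarith
  have h6 : ‖Complex.exp (((v / 2 : ℝ) : ℂ) * I) - Complex.exp (((w / 2 : ℝ) : ℂ) * I)‖ ≤ c / 8 := by
    refine (norm_exp_sub_exp _ _).trans ?_
    have : v / 2 - w / 2 = (v - w) / 2 := by ring
    rw [this, abs_div, abs_of_pos (by norm_num : (0:ℝ) < 2)]
    linarith
  linarith

lemma unif {u : ℝ → ℝ} {B : ℝ} (H : HB u B) (δ : ℝ) (hδ : 0 < δ) (hδ1 : δ ≤ 1) :
    ∃ η : ℝ, 0 < η ∧ ∀ ξ ξ' : ℝ, |ξ - ξ'| ≤ η → (∀ z ∈ Set.uIcc ξ ξ', 0 < u z) →
      |Real.log (u ξ) - Real.log (u ξ')| < δ := by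
  set v : ℝ → ℝ := fun ξ => Real.log (u ξ) with hv
  set c : ℝ := ‖Complex.exp ((δ / 2 : ℝ) * I) - 1‖ with hc
  have hc0 : 0 < c := by
    have h1 := norm_exp_sub_one_sq (δ / 2)
    have h2 : Real.cos (δ / 2) < Real.cos 0 :=
      Real.cos_lt_cos_of_nonneg_of_le_pi le_rfl (by linarith [Real.pi_gt_three]) (by linarith)
    rw [Real.cos_zero] at h2
    rw [← hc] at h1
    have h3 : 0 ≤ c := norm_nonneg _
    by_contra hcon
    have : c = 0 := le_antisymm (not_lt.mp hcon) h3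
    rw [this] at h1
    norm_num at h1
    linarith
  have hc2 : c ≤ 2 := by
    rw [hc]
    refine (norm_sub_le _ _).trans ?_
    rw [Complex.norm_exp_ofReal_mul_I]
    norm_num
  have hG : ∀ ε : ℝ, ∃ g : ℝ → ℂ, 0 < ε → ε ≤ 1/2 → (Integrable g ∧ ∫ x, ‖g x‖ ≤ B ∧
      ∀ ξ, 0 < u ξ → ft g ξ = Complex.exp (((ε:ℂ) + I / 2) * (Real.log (u ξ) : ℂ))) := by
    intro ε
    by_cases h : 0 < ε ∧ ε ≤ 1/2
    · obtain ⟨g, hg⟩ := H.rep ((ε:ℂ) + I / 2) (by simpa using h.1) (by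
        refine (norm_add_le _ _).trans ?_
        rw [Complex.norm_real, Real.norm_of_nonneg h.1.le, norm_div, Complex.norm_I]
        norm_num
        linarith [h.2])
      exact ⟨g, fun _ _ => hg⟩
    · exact ⟨0, fun h1 h2 => absurd ⟨h1, h2⟩ h⟩
  choose G hG using hG
  have hB0 : 0 ≤ B := (integral_nonneg fun _ => norm_nonneg _).trans
    (hG (1/2) (by norm_num) le_rfl).2.1
  by_contra hcon
  push Not at hcon
  refine annuli G (1/2) (by norm_num) (fun ε h1 h2 => (hG ε h1 h2).1) B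
    (fun ε h1 h2 => (hG ε h1 h2).2.1) (c / 8) (by positivity) ?_
  intro r hr
  obtain ⟨ξ, ξ1, hd1, hpos1, hδle⟩ := hcon (c / (8 * (B + 1) * (r + 1))) (by positivity)
  -- intermediate value
  have hvc : ContinuousOn v (Set.uIcc ξ ξ1) := fun z hz =>
    ((H.cont.continuousAt).log (hpos1 z hz).ne').continuousWithinAt
  obtain ⟨ξ', hξ', hξ'δ⟩ : ∃ ξ' ∈ Set.uIcc ξ ξ1, |v ξ - v ξ'| = δ := by
    have hcon2 : ContinuousOn (fun z => |v ξ - v z|) (Set.uIcc ξ ξ1) :=
      (continuousOn_const.sub hvc).abs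
    have := intermediate_value_uIcc hcon2
    have hmem : δ ∈ Set.uIcc (|v ξ - v ξ|) (|v ξ - v ξ1|) := by
      rw [sub_self, abs_zero, Set.uIcc_of_le (abs_nonneg _)]
      exact ⟨hδ.le, hδle⟩
    obtain ⟨z, hz, hz2⟩ := this hmem
    exact ⟨z, hz, hz2⟩
  have hd : |ξ - ξ'| ≤ c / (8 * (B + 1) * (r + 1)) := by
    refine le_trans ?_ hd1
    have := Set.abs_sub_left_of_mem_uIcc hξ'
    rw [abs_sub_comm ξ ξ', abs_sub_comm ξ ξ1]
    exact this
  have hu : 0 < u ξ := hpos1 ξ Set.left_mem_uIcc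
  have hu' : 0 < u ξ' := hpos1 ξ' hξ'
  -- local continuity
  have hloc : ∀ ω : ℝ, 0 < u ω → ∃ h : ℝ, 0 < h ∧ ∀ s, 0 ≤ s → s ≤ h →
      0 < u (ω + s) ∧ |v (ω + s) - v ω| ≤ c / 4 := by
    intro ω hω
    have h1 : ∀ᶠ z in 𝓝 ω, 0 < u z := H.cont.continuousAt.eventually_const_lt hω
    have hvω : ContinuousAt v ω := (H.cont.continuousAt).log hω.ne'
    have h2 : ∀ᶠ z in 𝓝 ω, dist (v z) (v ω) < c / 4 :=
      hvω.eventually (Metric.ball_mem_nhds _ (by positivity))
    obtain ⟨h, hh, hb⟩ := Metric.eventually_nhds_iff.mp (h1.and h2)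
    refine ⟨h / 2, by positivity, fun s hs1 hs2 => ?_⟩
    have := hb (y := ω + s) (by
      rw [Real.dist_eq, add_sub_cancel_left, abs_of_nonneg hs1]; linarith)
    refine ⟨this.1, ?_⟩
    have h3 := this.2
    rw [Real.dist_eq] at h3
    exact h3.le
  obtain ⟨h1, hh1, hl1⟩ := hloc ξ hu
  obtain ⟨h2, hh2, hl2⟩ := hloc ξ' hu'
  set h : ℝ := min h1 h2 with hh
  have hh0 : 0 < h := lt_min hh1 hh2
  set Q : ℝ := |v ξ| + |v ξ'| + c with hQ
  have hQ0 : 0 ≤ Q := by positivity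
  set R : ℝ := max (r + 1) (32 * (B + 1) / (h * c)) with hR
  refine ⟨R, lt_of_lt_of_le (by linarith) (le_max_left _ _), c / (16 * (Q + 1)), by positivity,
    fun ε hε hε0 hε1 => ?_⟩
  obtain ⟨hGi, hGB, hGf⟩ := hG ε hε hε1
  set g := G ε with hg
  -- lower bound
  set w : ℂ := Complex.exp (((v ξ / 2 : ℝ) : ℂ) * I) - Complex.exp (((v ξ' / 2 : ℝ) : ℂ) * I) with hw
  have hwn : ‖w‖ = c := by
    have h3 : w = Complex.exp (((v ξ' / 2 : ℝ) : ℂ) * I) *
        (Complex.exp ((((v ξ - v ξ') / 2 : ℝ) : ℂ) * I) - 1) := by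
      rw [hw, mul_sub, mul_one, ← Complex.exp_add]
      congr 2
      push_cast; ring
    rw [h3, norm_mul, Complex.norm_exp_ofReal_mul_I, one_mul]
    rcases abs_cases (v ξ - v ξ') with ⟨h4, _⟩ | ⟨h4, _⟩
    · rw [← h4, hξ'δ]
    · have h5 : v ξ - v ξ' = -δ := by rw [← hξ'δ, h4]; ring
      rw [h5, ← RCLike.norm_conj, map_sub, map_one, ← Complex.exp_conj, map_mul, Complex.conj_I,
        Complex.conj_ofReal]
      rw [hc]
      congr 3
      push_cast
      ring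
  have hf : Continuous fun s : ℝ => ft g (ξ + s) - ft g (ξ' + s) := by
    have := continuous_ft hGi
    fun_prop
  have hlow : ‖(∫ s in (0:ℝ)..h, (ft g (ξ + s) - ft g (ξ' + s))) - h * w‖ ≤ h * (c / 2) := by
    have h3 : (∫ s in (0:ℝ)..h, (ft g (ξ + s) - ft g (ξ' + s))) - h * w =
        ∫ s in (0:ℝ)..h, ((ft g (ξ + s) - ft g (ξ' + s)) - w) := by
      rw [intervalIntegral.integral_sub (hf.intervalIntegrable _ _)
        (continuous_const.intervalIntegrable _ _), intervalIntegral.integral_const]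
      simp
    rw [h3]
    have h4 := intervalIntegral.norm_integral_le_of_norm_le_const (a := 0) (b := h) (C := c / 2)
      (f := fun s => (ft g (ξ + s) - ft g (ξ' + s)) - w) (by
        intro s hs
        rw [Set.uIoc_of_le hh0.le] at hs
        obtain ⟨p1, p2⟩ := hl1 s hs.1.le (hs.2.trans (min_le_left _ _))
        obtain ⟨p3, p4⟩ := hl2 s hs.1.le (hs.2.trans (min_le_right _ _))
        rw [hGf _ p1, hGf _ p3]
        have q1 : |v (ξ + s)| ≤ Q := by
          have := abs_sub_abs_le_abs_sub (v (ξ + s)) (v ξ)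
          rw [hQ]
          linarith [abs_nonneg (v ξ')]
        have q2 : |v (ξ' + s)| ≤ Q := by
          have := abs_sub_abs_le_abs_sub (v (ξ' + s)) (v ξ')
          rw [hQ]
          linarith [abs_nonneg (v ξ)]
        have a1 := approx hε hQ0 q1 hc0 hc2 p2 hε0
        have a2 := approx hε hQ0 q2 hc0 hc2 p4 hε0
        have e : (Complex.exp (((ε:ℂ) + I / 2) * (Real.log (u (ξ + s)) : ℂ)) -
            Complex.exp (((ε:ℂ) + I / 2) * (Real.log (u (ξ' + s)) : ℂ))) - w =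
            (Complex.exp (((ε:ℂ) + I / 2) * (v (ξ + s) : ℂ)) - Complex.exp (((v ξ / 2 : ℝ) : ℂ) * I))
            - (Complex.exp (((ε:ℂ) + I / 2) * (v (ξ' + s) : ℂ)) -
              Complex.exp (((v ξ' / 2 : ℝ) : ℂ) * I)) := by
          rw [hw]; ring
        rw [e]
        refine (norm_sub_le _ _).trans ?_
        linarith)
    rw [sub_zero, abs_of_pos hh0, mul_comm] at h4
    exact h4
  have hlow2 : h * (c / 2) ≤ ‖∫ s in (0:ℝ)..h, (ft g (ξ + s) - ft g (ξ' + s))‖ := by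
    have h3 : ‖(h:ℂ) * w‖ = h * c := by
      rw [norm_mul, hwn, Complex.norm_real, Real.norm_of_nonneg hh0.le]
    have h4 : ‖(h:ℂ) * w‖ ≤ ‖∫ s in (0:ℝ)..h, (ft g (ξ + s) - ft g (ξ' + s))‖ +
        ‖(∫ s in (0:ℝ)..h, (ft g (ξ + s) - ft g (ξ' + s))) - h * w‖ := by
      have := norm_sub_le (∫ s in (0:ℝ)..h, (ft g (ξ + s) - ft g (ξ' + s)))
        ((∫ s in (0:ℝ)..h, (ft g (ξ + s) - ft g (ξ' + s))) - h * w)
      simpa using this
    rw [h3] at h4
    linarith
  rw [ft_average hGi ξ ξ' h hh0.le] at hlow2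
  -- upper bound
  set κ : ℝ := h * c / (8 * (B + 1)) with hκ
  have hκ0 : 0 ≤ κ := by positivity
  set A : Set ℝ := {x : ℝ | r < |x| ∧ |x| ≤ R} with hA
  have hAm : MeasurableSet A := (measurableSet_lt measurable_const measurable_id.abs).inter
    (measurableSet_le measurable_id.abs measurable_const)
  have hKb : ∀ x : ℝ, ‖K ξ ξ' h x * g x‖ ≤ κ * ‖g x‖ + 2 * h * A.indicator (fun x => ‖g x‖) x := by
    intro x
    rw [norm_mul]
    by_cases hx : x ∈ A
    · rw [Set.indicator_of_mem hx]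
      have := K_bound_two ξ ξ' h x hh0.le
      have h3 := mul_le_mul_of_nonneg_right this (norm_nonneg (g x))
      have h4 : 0 ≤ κ * ‖g x‖ := by positivity
      linarith
    · rw [Set.indicator_of_notMem hx, mul_zero, add_zero]
      refine mul_le_mul_of_nonneg_right ?_ (norm_nonneg _)
      rcases le_or_gt |x| r with hxr | hxr
      · refine (K_bound_diff ξ ξ' h x hh0.le).trans ?_
        calc |ξ - ξ'| * |x| * h ≤ c / (8 * (B + 1) * (r + 1)) * (r + 1) * h := by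
              gcongr
              linarith
          _ = κ := by rw [hκ]; field_simp
      · have hxR : R < |x| := by
          by_contra hcon3
          exact hx ⟨hxr, not_lt.mp hcon3⟩
        have hx0 : x ≠ 0 := by
          intro h0
          rw [h0, abs_zero] at hxr
          linarith
        have hR0 : 0 < 32 * (B + 1) / (h * c) := by positivity
        refine (K_bound_far ξ ξ' h x hx0).trans ?_
        calc 4 / |x| ≤ 4 / (32 * (B + 1) / (h * c)) := by
              gcongr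
              exact (le_max_right _ _).trans hxR.le
          _ = κ := by rw [hκ]; field_simp; norm_num
  have hI1 : Integrable (fun x => κ * ‖g x‖) := hGi.norm.const_mul _
  have hI2 : Integrable (fun x => 2 * h * A.indicator (fun x => ‖g x‖) x) :=
    (hGi.norm.indicator hAm).const_mul _
  have hup : ‖∫ x, K ξ ξ' h x * g x‖ ≤ κ * B + 2 * h * ∫ x in A, ‖g x‖ := by
    refine (norm_integral_le_integral_norm _).trans ?_
    refine (integral_mono_of_nonneg (ae_of_all _ fun _ => norm_nonneg _) (hI1.add hI2)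
      (ae_of_all _ hKb)).trans ?_
    have e : ∫ x, ((fun x => κ * ‖g x‖) + fun x => 2 * h * A.indicator (fun x => ‖g x‖) x) x =
        κ * (∫ x, ‖g x‖) + 2 * h * ∫ x in A, ‖g x‖ := by
      simp only [Pi.add_apply]
      rw [integral_add hI1 hI2, integral_const_mul, integral_const_mul, integral_indicator hAm]
    rw [e]
    gcongr
  have hκB : κ * B ≤ h * c / 8 := by
    rw [hκ, div_mul_eq_mul_div, div_le_div_iff₀ (by positivity) (by norm_num)]
    nlinarith [mul_pos hh0 hc0]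
  have h9 : h * (c / 2) ≤ h * c / 8 + 2 * h * ∫ x in A, ‖g x‖ := by linarith
  have h10 : h * (3 * c / 16) ≤ h * ∫ x in A, ‖g x‖ := by linarith
  have h11 := le_of_mul_le_mul_left h10 hh0
  linarith

end Pool.U873.HD
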